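import Pool.Agent.Lib.MP_e6c033_lc.TU.Defs

/-!
# Circuits

Elementary gates (pairs of natural numbers, `(t, j)`):
* `(0, j)`: an edge between the current vertices of the wires `j` and `j + 1`;
* `(1, j)` (`j = 0, 1`): an edge between the vertex `0` and the current vertex of the wire `j`;
* `(2, j)`: a new vertex, joined to the current vertex of the wire `j`, becomes the current vertex of the wire `j`.
Words are read from left to right; the first gate of the word is performed first.

Ideal gates, with two parameters `z, u`: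
* `(0, j)`: `R_j`, multiplication by `1` (spins `j, j + 1` equal) or `u`;
* `(1, 0)`: `A_0 A_1`, `A_j` = multiplication by `1` (spin `j` up) or `u`;
* `(2, j)`: `E_j E_(j+1)`, `E_j f (σ) = (1 + z) f (σ) + (1 - z) f (σ with spin j reversed)`;
* `(3, 0)`: multiplication by `y` (spins `0, 1` equal) or `1`.
-/

set_option autoImplicit false

namespace Pool.Agent.TU

/-! ### The graph of an elementary word -/

/-- State: the current vertices of the wires, the next new vertex, the edges (the last one first). -/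
abbrev St := List ℕ × ℕ × List (ℕ × ℕ)

/-- One gate. -/
def stp (s : St) (g : ℕ × ℕ) : St :=
  if g.1 = 0 then (s.1, s.2.1, (s.1.getD g.2 0, s.1.getD (g.2 + 1) 0) :: s.2.2)
  else if g.1 = 1 then (s.1, s.2.1, (0, s.1.getD g.2 0) :: s.2.2)
  else (s.1.set g.2 s.2.1, s.2.1 + 1, (s.1.getD g.2 0, s.2.1) :: s.2.2)

/-- The initial state with `m` wires: the vertex `0` and the vertices `1, ..., m` of the wires. -/
def ini (m : ℕ) : St := ((List.range m).map (· + 1), m + 1, [])

/-- The state after the word `w`. -/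
def run (m : ℕ) (w : List (ℕ × ℕ)) : St := w.foldl stp (ini m)

/-- The gate fits to `m` wires. -/
def OkG (m : ℕ) (g : ℕ × ℕ) : Prop :=
  g.2 < m ∧ (g.1 = 0 → g.2 + 1 < m) ∧ (g.1 = 1 → g.2 < 2)

/-- All gates of the word fit to `m` wires. -/
def OkW (m : ℕ) (w : List (ℕ × ℕ)) : Prop := ∀ g ∈ w, OkG m g

/-- The graph of the word (with a junk value if the word does not fit). -/
def mk (m : ℕ) (w : List (ℕ × ℕ)) : EG :=
  if h : ∀ e ∈ (run m w).2.2, e.1 < (run m w).2.1 ∧ e.2 < (run m w).2.1 then
    ⟨(run m w).2.1, (run m w).2.2, h⟩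
  else ⟨0, [], by simp⟩

/-! ### Operators on functions of the spins -/

/-- Spin `j` reversed. -/
def fl (j : ℕ) (σ : ℕ → Bool) : ℕ → Bool := Function.update σ j (!σ j)

/-- Spins `j` and `j + 1` exchanged. -/
def sw (j : ℕ) (σ : ℕ → Bool) : ℕ → Bool := fun i => σ (Equiv.swap j (j + 1) i)

section
variable {K : Type} [CommRing K]

/-- Multiplication by `a` if the spins `j, j + 1` are equal and by `b` otherwise. -/
def opR (j : ℕ) (a b : K) (f : (ℕ → Bool) → K) : (ℕ → Bool) → K :=
  fun σ => (if σ j = σ (j + 1) then a else b) * f σ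

/-- Multiplication by `a` if the spin `j` is up and by `b` otherwise. -/
def opA (j : ℕ) (a b : K) (f : (ℕ → Bool) → K) : (ℕ → Bool) → K :=
  fun σ => (if σ j = true then a else b) * f σ

/-- `a f + b (f with spin j reversed)`. -/
def opE (j : ℕ) (a b : K) (f : (ℕ → Bool) → K) : (ℕ → Bool) → K :=
  fun σ => a * f σ + b * f (fl j σ)

/-- Elementary gates. -/
def eop (y : K) (g : ℕ × ℕ) (f : (ℕ → Bool) → K) : (ℕ → Bool) → K :=
  if g.1 = 0 then opR g.2 y 1 f else if g.1 = 1 then opA g.2 y 1 f else opE g.2 y 1 f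

/-- Elementary words. -/
def ev (y : K) (w : List (ℕ × ℕ)) (f : (ℕ → Bool) → K) : (ℕ → Bool) → K := w.foldr (eop y) f

/-- Ideal gates. -/
def iop (z u y : K) (g : ℕ × ℕ) (f : (ℕ → Bool) → K) : (ℕ → Bool) → K :=
  if g.1 = 0 then opR g.2 1 u f
  else if g.1 = 1 then opA 0 1 u (opA 1 1 u f)
  else if g.1 = 2 then opE g.2 (1 + z) (1 - z) (opE (g.2 + 1) (1 + z) (1 - z) f)
  else opR 0 y 1 f

/-- Ideal words. -/
def iv (z u y : K) (w : List (ℕ × ℕ)) (f : (ℕ → Bool) → K) : (ℕ → Bool) → K :=
  w.foldr (iop z u y) f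

/-- The spins of the wires `0, ..., m - 1`, continued. -/
def ext {m : ℕ} (σ : Fin m → Bool) : ℕ → Bool := fun j => if h : j < m then σ ⟨j, h⟩ else false

/-- Sum over the spins of the wires `0, ..., m - 1`. -/
def ssum (m : ℕ) (f : (ℕ → Bool) → K) : K := ∑ σ : Fin m → Bool, f (ext σ)

theorem ev_nil (y : K) (f : (ℕ → Bool) → K) : ev y [] f = f := rfl

theorem ev_cons (y : K) (g : ℕ × ℕ) (w : List (ℕ × ℕ)) (f : (ℕ → Bool) → K) :
    ev y (g :: w) f = eop y g (ev y w f) := rfl

theorem ev_append (y : K) (w w' : List (ℕ × ℕ)) (f : (ℕ → Bool) → K) :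
    ev y (w ++ w') f = ev y w (ev y w' f) := by
  simp [ev, List.foldr_append]

theorem iv_nil (z u y : K) (f : (ℕ → Bool) → K) : iv z u y [] f = f := rfl

theorem iv_cons (z u y : K) (g : ℕ × ℕ) (w : List (ℕ × ℕ)) (f : (ℕ → Bool) → K) :
    iv z u y (g :: w) f = iop z u y g (iv z u y w f) := rfl

theorem iv_append (z u y : K) (w w' : List (ℕ × ℕ)) (f : (ℕ → Bool) → K) :
    iv z u y (w ++ w') f = iv z u y w (iv z u y w' f) := by
  simp [iv, List.foldr_append]

theorem opR_smul (j : ℕ) (a b c : K) (f : (ℕ → Bool) → K) :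
    opR j a b (fun σ => c * f σ) = fun σ => c * opR j a b f σ := by
  funext σ; simp only [opR]; ring

theorem opA_smul (j : ℕ) (a b c : K) (f : (ℕ → Bool) → K) :
    opA j a b (fun σ => c * f σ) = fun σ => c * opA j a b f σ := by
  funext σ; simp only [opA]; ring

theorem opE_smul (j : ℕ) (a b c : K) (f : (ℕ → Bool) → K) :
    opE j a b (fun σ => c * f σ) = fun σ => c * opE j a b f σ := by
  funext σ; simp only [opE]; ring

theorem iop_smul (z u y c : K) (g : ℕ × ℕ) (f : (ℕ → Bool) → K) :
    iop z u y g (fun σ => c * f σ) = fun σ => c * iop z u y g f σ := by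
  unfold iop
  split_ifs
  · rw [opR_smul]
  · rw [opA_smul, opA_smul]
  · rw [opE_smul, opE_smul]
  · rw [opR_smul]

theorem iv_smul (z u y c : K) (w : List (ℕ × ℕ)) (f : (ℕ → Bool) → K) :
    iv z u y w (fun σ => c * f σ) = fun σ => c * iv z u y w f σ := by
  induction w with
  | nil => rfl
  | cons g w ih => rw [iv_cons, iv_cons, ih, iop_smul]

end

/-! ### Ideal words and elementary words -/

/-- The number of gates `(0, j)`. -/
def cR (w : List (ℕ × ℕ)) : ℕ := w.countP (fun g => decide (g.1 = 0))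
/-- The number of gates `(1, j)`. -/
def cA (w : List (ℕ × ℕ)) : ℕ := w.countP (fun g => decide (g.1 = 1))
/-- The number of gates `(2, j)`. -/
def cE (w : List (ℕ × ℕ)) : ℕ := w.countP (fun g => decide (g.1 = 2))

/-- The elementary word of an ideal gate. -/
def ex (k l : ℕ) (g : ℕ × ℕ) : List (ℕ × ℕ) :=
  if g.1 = 0 then List.replicate l (0, g.2)
  else if g.1 = 1 then List.replicate l (1, 0) ++ List.replicate l (1, 1)
  else if g.1 = 2 then List.replicate k (2, g.2) ++ List.replicate k (2, g.2 + 1)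
  else [(0, 0)]

/-- The elementary word of an ideal word. -/
def exw (k l : ℕ) (w : List (ℕ × ℕ)) : List (ℕ × ℕ) := w.flatMap (ex k l)

/-- The ideal word fits to `m` wires. -/
def OkI (m : ℕ) (w : List (ℕ × ℕ)) : Prop := ∀ g ∈ w, g.2 + 1 < m

/-! ### The words for a graph -/

/-- The fermionic swap of the wires `j, j + 1`. -/
def fS (j : ℕ) : List (ℕ × ℕ) := [(0, j), (2, j), (0, j)]

/-- The swap of the wires `0, 1`. -/
def ts0 : List (ℕ × ℕ) := fS 0 ++ [(2, 0), (1, 0), (2, 0), (0, 0), (2, 0), (1, 0)]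

/-- The swap of the wires `j, j + 1`. -/
def ts (j : ℕ) : List (ℕ × ℕ) :=
  (List.range j).reverse.flatMap (fun i => fS i ++ fS (i + 1)) ++ ts0 ++
    (List.range j).flatMap (fun i => fS (i + 1) ++ fS i)

/-- The word for an edge `(a, b)`, `a ≠ b`; the wires `a` and `b` are moved to the places `0` and `1` and back. -/
def we (a b : ℕ) : List (ℕ × ℕ) :=
  (List.range a).reverse.flatMap ts ++
    (List.range ((if a < b then b else b + 1) - 1)).reverse.flatMap (fun i => ts (i + 1)) ++
    [(3, 0)] ++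
    (List.range ((if a < b then b else b + 1) - 1)).flatMap (fun i => ts (i + 1)) ++
    (List.range a).flatMap ts

/-- The word for a list of edges; loops are left out. -/
def wg (es : List (ℕ × ℕ)) : List (ℕ × ℕ) := es.flatMap (fun e => if e.1 = e.2 then [] else we e.1 e.2)

/-- The number of loops. -/
def loops (es : List (ℕ × ℕ)) : ℕ := es.countP (fun e => decide (e.1 = e.2))

end Pool.Agent.TU
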