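import Mathlib

/-!
# Finite multigraphs, minor-closed classes, the Tutte polynomial, the graphs `D_k`

Campaign TU (MP_e6c033): the Ising line `H_2` of the Tutte plane is hard on every minor-closed class which contains all the
graphs `D_k`: the `k × k` grid plus one more vertex joined to all the vertices of the second row.
-/

set_option autoImplicit false

namespace Pool.Agent.TU

/-- A finite multigraph; loops and parallel edges are allowed.  The two ends of an edge are given in some order, which does not
matter (see `Iso`). -/
structure MGraph where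
  V : Type
  E : Type
  fV : Fintype V
  fE : Fintype E
  ends : E → V × V

attribute [instance] MGraph.fV MGraph.fE

namespace MGraph

/-- Isomorphism: bijections of the vertices and of the edges which respect the ends (up to their order). -/
def Iso (G H : MGraph) : Prop :=
  ∃ (f : G.V ≃ H.V) (g : G.E ≃ H.E), ∀ e : G.E,
    H.ends (g e) = (f (G.ends e).1, f (G.ends e).2) ∨
      H.ends (g e) = (f (G.ends e).2, f (G.ends e).1)

/-- Deletion of the edge `e`. -/
noncomputable def delE (G : MGraph) (e : G.E) : MGraph where
  V := G.V
  E := {f : G.E // f ≠ e}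
  fV := G.fV
  fE := Fintype.ofFinite _
  ends f := G.ends f.1

/-- Deletion of the vertex `v` and of all the edges at `v`. -/
noncomputable def delV (G : MGraph) (v : G.V) : MGraph where
  V := {w : G.V // w ≠ v}
  E := {f : G.E // (G.ends f).1 ≠ v ∧ (G.ends f).2 ≠ v}
  fV := Fintype.ofFinite _
  fE := Fintype.ofFinite _
  ends f := (⟨(G.ends f.1).1, f.2.1⟩, ⟨(G.ends f.1).2, f.2.2⟩)

open Classical in
/-- The second end of `e` is merged into the first end. -/
noncomputable def mg (G : MGraph) (e : G.E) (h : (G.ends e).1 ≠ (G.ends e).2) (w : G.V) :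
    {w : G.V // w ≠ (G.ends e).2} :=
  if hw : w = (G.ends e).2 then ⟨(G.ends e).1, h⟩ else ⟨w, hw⟩

/-- Contraction of the edge `e`, which is not a loop. -/
noncomputable def contr (G : MGraph) (e : G.E) (h : (G.ends e).1 ≠ (G.ends e).2) : MGraph where
  V := {w : G.V // w ≠ (G.ends e).2}
  E := {f : G.E // f ≠ e}
  fV := Fintype.ofFinite _
  fE := Fintype.ofFinite _
  ends f := (G.mg e h (G.ends f.1).1, G.mg e h (G.ends f.1).2)

/-- A class of multigraphs is minor-closed if it is closed under isomorphism, deletion of edges and vertices, and contraction of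
edges (the contraction of a loop is its deletion). -/
structure MinorClosed (C : Set MGraph) : Prop where
  iso : ∀ G H : MGraph, G ∈ C → Iso G H → H ∈ C
  delE : ∀ (G : MGraph) (e : G.E), G ∈ C → G.delE e ∈ C
  delV : ∀ (G : MGraph) (v : G.V), G ∈ C → G.delV v ∈ C
  contr : ∀ (G : MGraph) (e : G.E) (h : (G.ends e).1 ≠ (G.ends e).2), G ∈ C → G.contr e h ∈ C

/-- The number `k(A)` of connected components of the graph with all the vertices and the edges in `A`. -/
noncomputable def comps (G : MGraph) (A : Finset G.E) : ℕ :=
  Nat.card (Quot fun a b : G.V => ∃ e ∈ A, G.ends e = (a, b))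

/-- The rank `r(A) = |V| - k(A)`. -/
noncomputable def rk (G : MGraph) (A : Finset G.E) : ℕ := Fintype.card G.V - G.comps A

/-- The Tutte polynomial at `(x, y)`. -/
noncomputable def tutte (G : MGraph) (x y : ℚ) : ℚ :=
  ∑ A : Finset G.E, (x - 1) ^ (G.rk Finset.univ - G.rk A) * (y - 1) ^ (A.card - G.rk A)

open Classical in
/-- The Ising partition function: sum over all the spins of the product over the edges of `y` (equal spins) or `1`. -/
noncomputable def zy (G : MGraph) (y : ℚ) : ℚ :=
  ∑ σ : G.V → Bool, ∏ e : G.E, (if σ (G.ends e).1 = σ (G.ends e).2 then y else 1)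

end MGraph

/-- The edges of `D_k`; `(r, c)` is the grid point in row `r` and column `c`, `none` is the additional vertex. -/
def DEdge (k : ℕ) (p : Option (Fin k × Fin k) × Option (Fin k × Fin k)) : Prop :=
  (∃ r c c' : Fin k, c.val + 1 = c'.val ∧ p = (some (r, c), some (r, c'))) ∨
  (∃ r r' c : Fin k, r.val + 1 = r'.val ∧ p = (some (r, c), some (r', c))) ∨
  (∃ r c : Fin k, r.val = 1 ∧ p = (none, some (r, c)))

/-- The `k × k` grid plus one more vertex joined to all the vertices of the second row. -/
noncomputable def dg (k : ℕ) : MGraph where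
  V := Option (Fin k × Fin k)
  E := {p : Option (Fin k × Fin k) × Option (Fin k × Fin k) // DEdge k p}
  fV := inferInstance
  fE := Fintype.ofFinite _
  ends := Subtype.val

/-- The edges of `D_k^+`. -/
def PEdge (k : ℕ) (p : Option (Fin k × Fin k) × Option (Fin k × Fin k)) : Prop :=
  (∃ r c c' : Fin k, c.val + 1 = c'.val ∧ p = (some (r, c), some (r, c'))) ∨
  (∃ r r' c : Fin k, r.val + 1 = r'.val ∧ p = (some (r, c), some (r', c))) ∨
  (∃ r c : Fin k, r.val < 2 ∧ p = (none, some (r, c)))

/-- The `k × k` grid plus one more vertex joined to all the vertices of the first and of the second row. -/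
noncomputable def dp (k : ℕ) : MGraph where
  V := Option (Fin k × Fin k)
  E := {p : Option (Fin k × Fin k) × Option (Fin k × Fin k) // PEdge k p}
  fV := inferInstance
  fE := Fintype.ofFinite _
  ends := Subtype.val

/-! ### Encoded graphs -/

/-- A multigraph given as data: the vertices are `0, ..., n - 1`, the edges are the elements of a list of pairs. -/
structure EG where
  n : ℕ
  es : List (ℕ × ℕ)
  ok : ∀ e ∈ es, e.1 < n ∧ e.2 < n

/-- The multigraph of the data. -/
def EG.toM (G : EG) : MGraph where
  V := Fin G.n
  E := Fin G.es.length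
  fV := inferInstance
  fE := inferInstance
  ends i := (⟨(G.es[i.1]).1, (G.ok _ (List.getElem_mem i.2)).1⟩,
    ⟨(G.es[i.1]).2, (G.ok _ (List.getElem_mem i.2)).2⟩)

end Pool.Agent.TU
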