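import Pool.Agent.Lib.MP_e6c033_lc.TU.Circ

/-!
# Task Pl: interpolation

Proofs.
* `exists_poly_z`: for fixed `u, y, w, f` with `f` constant in `z`: there is `p : Polynomial K` with `p.natDegree ≤ 2 * cE w` and `iv z u y w f σ = p.eval z` for all `z`; induction on `w`, for all
  `σ` (kind `2` multiplies by polynomials of degree `2`: `(1 + z)`, `(1 - z)` twice).  `exists_poly_u`: same with `cR w + 2 * cA w`.  Then sums over `σ`.
* Lagrange: for `p` of degree `≤ N` and the `N + 1` different nodes `a ^ (k + 1)`, `k ≤ N`: `p.eval ζ = ∑_k Lg a N ζ k * p.eval (a ^ (k + 1))` (Mathlib: `Lagrange.eq_interpolate`,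
  `Lagrange.interpolate_apply`, `Lagrange.basis`, `Polynomial.eval_prod`, `Lagrange.basisDivisor`).
* `interp`: first in `z` (for `u = ζ'`), then in `u`.
-/

set_option autoImplicit false

namespace Pool.Agent.TU

open Finset

/-- The values of the Lagrange polynomials for the nodes `a, a ^ 2, ..., a ^ (N + 1)` at `ζ`. -/
noncomputable def Lg {K : Type} [Field K] (a : K) (N : ℕ) (ζ : K) (k : ℕ) : K :=
  ∏ j ∈ (range (N + 1)).erase k, (ζ - a ^ (j + 1)) / (a ^ (k + 1) - a ^ (j + 1))

private theorem Pl_lagrange {K : Type} [Field K] (a : K)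
    (ha : Function.Injective (fun k : ℕ => a ^ (k + 1))) (N : ℕ) (p : Polynomial K)
    (hp : p.natDegree ≤ N) (ζ : K) :
    p.eval ζ = ∑ k ∈ range (N + 1), Lg a N ζ k * p.eval (a ^ (k + 1)) := by
  have h := Lagrange.eq_interpolate (s := range (N + 1)) (v := fun k : ℕ => a ^ (k + 1)) (f := p)
    (ha.injOn) (by
      rw [card_range]
      exact lt_of_le_of_lt Polynomial.degree_le_natDegree (by exact_mod_cast Nat.lt_succ_of_le hp))
  have h1 : p.eval ζ = ((Lagrange.interpolate (range (N + 1)) (fun k : ℕ => a ^ (k + 1)))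
      (fun i => Polynomial.eval (a ^ (i + 1)) p)).eval ζ := by
    rw [← h]
  rw [h1, Lagrange.interpolate_apply, Polynomial.eval_finsetSum]
  apply sum_congr rfl
  intro k hk
  rw [Polynomial.eval_mul, Polynomial.eval_C, mul_comm]
  congr 1
  unfold Lagrange.basis Lg
  rw [Polynomial.eval_prod]
  apply prod_congr rfl
  intro j hj
  rw [Lagrange.basisDivisor, Polynomial.eval_mul, Polynomial.eval_C, Polynomial.eval_sub,
    Polynomial.eval_X, Polynomial.eval_C, div_eq_inv_mul]

private theorem Pl_map {R S : Type} [CommRing R] [CommRing S] (φ : R →+* S) (z u y : R)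
    (w : List (ℕ × ℕ)) (f : (ℕ → Bool) → R) (σ : ℕ → Bool) :
    φ (iv z u y w f σ) = iv (φ z) (φ u) (φ y) w (fun τ => φ (f τ)) σ := by
  induction w generalizing σ with
  | nil => rfl
  | cons g w ih =>
    rw [iv_cons, iv_cons]
    have ih' : iv (φ z) (φ u) (φ y) w (fun τ => φ (f τ)) = fun σ => φ (iv z u y w f σ) := by
      funext τ
      exact (ih τ).symm
    rw [ih']
    unfold iop
    split_ifs
    · simp only [opR, map_mul]
      split_ifs <;> simp
    · simp only [opA, map_mul]
      split_ifs <;> simp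
    · simp only [opE, map_mul, map_add, map_sub, map_one]
    · simp only [opR, map_mul]
      split_ifs <;> simp

private theorem Pl_mul {K : Type} [Field K] {p q : Polynomial K} {a b c : ℕ}
    (hp : p.natDegree ≤ a) (hq : q.natDegree ≤ b) (h : a + b ≤ c) : (p * q).natDegree ≤ c :=
  (Polynomial.natDegree_mul_le_of_le hp hq).trans h

private theorem Pl_add {K : Type} [Field K] {p q : Polynomial K} {c : ℕ}
    (hp : p.natDegree ≤ c) (hq : q.natDegree ≤ c) : (p + q).natDegree ≤ c :=
  Polynomial.natDegree_add_le_of_degree_le hp hq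

private theorem Pl_pX {K : Type} [Field K] : (1 + Polynomial.X : Polynomial K).natDegree ≤ 1 :=
  Pl_add (by simp) (by simp)

private theorem Pl_mX {K : Type} [Field K] : (1 - Polynomial.X : Polynomial K).natDegree ≤ 1 := by
  rw [sub_eq_add_neg]
  exact Pl_add (by simp) (by rw [Polynomial.natDegree_neg]; simp)

private theorem Pl_degz {K : Type} [Field K] (u y : K) (w : List (ℕ × ℕ)) (σ : ℕ → Bool) :
    (iv Polynomial.X (Polynomial.C u) (Polynomial.C y) w (fun _ => 1) σ).natDegree ≤
      2 * cE w := by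
  induction w generalizing σ with
  | nil => simp [iv]
  | cons g w ih =>
    rw [iv_cons]
    have hle : cE w ≤ cE (g :: w) := by
      unfold cE
      rw [List.countP_cons]
      omega
    unfold iop
    split_ifs with h0 h1 h2
    · simp only [opR]
      refine Pl_mul (a := 0) ?_ (ih σ) (by omega)
      split_ifs <;> simp
    · simp only [opA]
      refine Pl_mul (a := 0) (b := 2 * cE w) ?_ (Pl_mul (a := 0) ?_ (ih σ) (by omega)) (by omega)
      · split_ifs <;> simp
      · split_ifs <;> simp
    · have hE : cE (g :: w) = cE w + 1 := by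
        unfold cE
        rw [List.countP_cons, if_pos (by simp [h2])]
      simp only [opE]
      refine Pl_add (Pl_mul (a := 1) (b := 2 * cE w + 1) Pl_pX (Pl_add ?_ ?_) (by omega))
        (Pl_mul (a := 1) (b := 2 * cE w + 1) Pl_mX (Pl_add ?_ ?_) (by omega))
      · exact Pl_mul (a := 1) Pl_pX (ih _) (by omega)
      · exact Pl_mul (a := 1) Pl_mX (ih _) (by omega)
      · exact Pl_mul (a := 1) Pl_pX (ih _) (by omega)
      · exact Pl_mul (a := 1) Pl_mX (ih _) (by omega)
    · simp only [opR]
      refine Pl_mul (a := 0) ?_ (ih σ) (by omega)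
      split_ifs <;> simp

private theorem Pl_degu {K : Type} [Field K] (z y : K) (w : List (ℕ × ℕ)) (σ : ℕ → Bool) :
    (iv (Polynomial.C z) Polynomial.X (Polynomial.C y) w (fun _ => 1) σ).natDegree ≤
      cR w + 2 * cA w := by
  induction w generalizing σ with
  | nil => simp [iv]
  | cons g w ih =>
    rw [iv_cons]
    have hR : cR w ≤ cR (g :: w) := by
      unfold cR
      rw [List.countP_cons]
      omega
    have hA : cA w ≤ cA (g :: w) := by
      unfold cA
      rw [List.countP_cons]
      omega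
    unfold iop
    split_ifs with h0 h1 h2
    · have hE : cR (g :: w) = cR w + 1 := by
        unfold cR
        rw [List.countP_cons, if_pos (by simp [h0])]
      simp only [opR]
      refine Pl_mul (a := 1) ?_ (ih σ) (by omega)
      split_ifs <;> simp
    · have hE : cA (g :: w) = cA w + 1 := by
        unfold cA
        rw [List.countP_cons, if_pos (by simp [h1])]
      simp only [opA]
      refine Pl_mul (a := 1) (b := cR w + 2 * cA w + 1) ?_
        (Pl_mul (a := 1) ?_ (ih σ) (by omega)) (by omega)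
      · split_ifs <;> simp
      · split_ifs <;> simp
    · simp only [opE]
      have hp : (1 + Polynomial.C z : Polynomial K).natDegree ≤ 0 := Pl_add (by simp) (by simp)
      have hm : (1 - Polynomial.C z : Polynomial K).natDegree ≤ 0 := by
        rw [sub_eq_add_neg]
        exact Pl_add (by simp) (by rw [Polynomial.natDegree_neg]; simp)
      refine Pl_add (Pl_mul (a := 0) (b := cR w + 2 * cA w) hp (Pl_add ?_ ?_) (by omega))
        (Pl_mul (a := 0) (b := cR w + 2 * cA w) hm (Pl_add ?_ ?_) (by omega))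
      · exact Pl_mul (a := 0) hp (ih _) (by omega)
      · exact Pl_mul (a := 0) hm (ih _) (by omega)
      · exact Pl_mul (a := 0) hp (ih _) (by omega)
      · exact Pl_mul (a := 0) hm (ih _) (by omega)
    · simp only [opR]
      refine Pl_mul (a := 0) ?_ (ih σ) (by omega)
      split_ifs <;> simp

private theorem Pl_evz {K : Type} [Field K] (z u y : K) (w : List (ℕ × ℕ)) (σ : ℕ → Bool) :
    (iv Polynomial.X (Polynomial.C u) (Polynomial.C y) w (fun _ => 1) σ).eval z =
      iv z u y w (fun _ => 1) σ := by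
  have h := Pl_map (Polynomial.evalRingHom z) Polynomial.X (Polynomial.C u) (Polynomial.C y) w
    (fun _ => 1) σ
  simpa using h

private theorem Pl_evu {K : Type} [Field K] (z u y : K) (w : List (ℕ × ℕ)) (σ : ℕ → Bool) :
    (iv (Polynomial.C z) Polynomial.X (Polynomial.C y) w (fun _ => 1) σ).eval u =
      iv z u y w (fun _ => 1) σ := by
  have h := Pl_map (Polynomial.evalRingHom u) (Polynomial.C z) Polynomial.X (Polynomial.C y) w
    (fun _ => 1) σ
  simpa using h

private theorem Pl_interp_z {K : Type} [Field K] (y a ζ u : K)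
    (ha : Function.Injective (fun k : ℕ => a ^ (k + 1))) (m : ℕ) (w : List (ℕ × ℕ)) :
    ssum m (iv ζ u y w (fun _ => 1)) =
      ∑ k ∈ range (2 * cE w + 1), Lg a (2 * cE w) ζ k *
          ssum m (iv (a ^ (k + 1)) u y w (fun _ => 1)) := by
  unfold ssum
  simp only [mul_sum]
  rw [sum_comm]
  apply sum_congr rfl
  intro σ hσ
  rw [← Pl_evz, Pl_lagrange a ha (2 * cE w) _ (Pl_degz u y w _) ζ]
  apply sum_congr rfl
  intro k hk
  rw [Pl_evz]

private theorem Pl_interp_u {K : Type} [Field K] (y b z ζ' : K)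
    (hb : Function.Injective (fun k : ℕ => b ^ (k + 1))) (m : ℕ) (w : List (ℕ × ℕ)) :
    ssum m (iv z ζ' y w (fun _ => 1)) =
      ∑ l ∈ range (cR w + 2 * cA w + 1), Lg b (cR w + 2 * cA w) ζ' l *
          ssum m (iv z (b ^ (l + 1)) y w (fun _ => 1)) := by
  unfold ssum
  simp only [mul_sum]
  rw [sum_comm]
  apply sum_congr rfl
  intro σ hσ
  rw [← Pl_evu, Pl_lagrange b hb (cR w + 2 * cA w) _ (Pl_degu z y w _) ζ']
  apply sum_congr rfl
  intro k hk
  rw [Pl_evu]

theorem interp {K : Type} [Field K] (y a b ζ ζ' : K) (ha : Function.Injective (fun k : ℕ => a ^ (k + 1)))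
    (hb : Function.Injective (fun k : ℕ => b ^ (k + 1))) (m : ℕ) (w : List (ℕ × ℕ)) :
    ssum m (iv ζ ζ' y w (fun _ => 1)) =
      ∑ k ∈ range (2 * cE w + 1), ∑ l ∈ range (cR w + 2 * cA w + 1),
        Lg a (2 * cE w) ζ k * Lg b (cR w + 2 * cA w) ζ' l *
          ssum m (iv (a ^ (k + 1)) (b ^ (l + 1)) y w (fun _ => 1)) := by
  rw [Pl_interp_z y a ζ ζ' ha m w]
  apply sum_congr rfl
  intro k hk
  rw [Pl_interp_u y b _ ζ' hb m w, mul_sum]
  apply sum_congr rfl
  intro l hl
  ring

end Pool.Agent.TU
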