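import Pool.Agent.Lib.MP_e6c033_lc.TU.Circ

/-!
# Task Po: elementary words of ideal words

Proofs.  Write `t = (y - 1) / (y + 1)`.
* `k` times the gate `(2, j)`: `ev y (List.replicate k (2, j)) f σ = ((y + 1) ^ k / 2) * opE j (1 + t ^ k) (1 - t ^ k) f σ`, induction on `k` (`fl j (fl j σ) = σ`;
  `k = 0`: `(1 / 2) * (2 f σ + 0)`).
* `l` times `(0, j)`: `opR j (y ^ l) 1 f = y ^ l * opR j 1 ((1 / y) ^ l) f`.  Same for `(1, j)`.
* one ideal gate, then induction on `w` (`exw k l (g :: w) = ex k l g ++ exw k l w`, `ev_append`, `opR_smul`, `opA_smul`, `opE_smul`, `List.countP_cons`).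
* `ok_exw`: membership in `exw` (`List.mem_flatMap`, `List.mem_replicate`).
-/

set_option autoImplicit false

namespace Pool.Agent.TU

section
variable {K : Type} [Field K]

private theorem Po_fl_fl (j : ℕ) (σ : ℕ → Bool) : fl j (fl j σ) = σ := by
  funext i
  unfold fl
  by_cases h : i = j
  · subst h
    simp
  · simp [h]

private theorem Po_E (h2 : (2 : K) ≠ 0) (y : K) (h1 : y + 1 ≠ 0) (k j : ℕ)
    (f : (ℕ → Bool) → K) :
    ev y (List.replicate k (2, j)) f = fun σ =>
      ((y + 1) ^ k / 2) * opE j (1 + ((y - 1) / (y + 1)) ^ k) (1 - ((y - 1) / (y + 1)) ^ k) f σ := by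
  induction k with
  | zero =>
    funext σ
    simp only [List.replicate, ev_nil, opE, pow_zero]
    field_simp
    ring
  | succ k ih =>
    rw [List.replicate_succ, ev_cons, ih]
    have e1 : ∀ g : (ℕ → Bool) → K, eop y (2, j) g = opE j y 1 g := fun g => rfl
    rw [e1, opE_smul]
    funext σ
    simp only [opE, Po_fl_fl]
    have e2 : (y + 1) * ((y - 1) / (y + 1)) = y - 1 := by field_simp
    set t := (y - 1) / (y + 1) with ht
    rw [pow_succ (y + 1) k, pow_succ t k]
    linear_combination (-((y + 1) ^ k / 2 * t ^ k * (f σ - f (fl j σ)))) * e2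

private theorem Po_R (y : K) (l j : ℕ) (f : (ℕ → Bool) → K) :
    ev y (List.replicate l (0, j)) f = opR j (y ^ l) 1 f := by
  induction l with
  | zero =>
    funext σ
    simp [ev_nil, opR]
  | succ l ih =>
    rw [List.replicate_succ, ev_cons, ih]
    have e1 : ∀ g : (ℕ → Bool) → K, eop y (0, j) g = opR j y 1 g := fun g => rfl
    rw [e1]
    funext σ
    simp only [opR]
    split_ifs
    · ring
    · ring

private theorem Po_A (y : K) (l j : ℕ) (f : (ℕ → Bool) → K) :
    ev y (List.replicate l (1, j)) f = opA j (y ^ l) 1 f := by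
  induction l with
  | zero =>
    funext σ
    simp [ev_nil, opA]
  | succ l ih =>
    rw [List.replicate_succ, ev_cons, ih]
    have e1 : ∀ g : (ℕ → Bool) → K, eop y (1, j) g = opA j y 1 g := fun g => rfl
    rw [e1]
    funext σ
    simp only [opA]
    split_ifs
    · ring
    · ring

private theorem Po_R' (y : K) (h0 : y ≠ 0) (l j : ℕ) (f : (ℕ → Bool) → K) :
    ev y (List.replicate l (0, j)) f = fun σ => y ^ l * opR j 1 ((1 / y) ^ l) f σ := by
  rw [Po_R]
  funext σ
  have e : y ^ l * (1 / y) ^ l = 1 := by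
    rw [← mul_pow, mul_one_div_cancel h0, one_pow]
  simp only [opR]
  split_ifs
  · ring
  · linear_combination (-(f σ)) * e

private theorem Po_A' (y : K) (h0 : y ≠ 0) (l j : ℕ) (f : (ℕ → Bool) → K) :
    ev y (List.replicate l (1, j)) f = fun σ => y ^ l * opA j 1 ((1 / y) ^ l) f σ := by
  rw [Po_A]
  funext σ
  have e : y ^ l * (1 / y) ^ l = 1 := by
    rw [← mul_pow, mul_one_div_cancel h0, one_pow]
  simp only [opA]
  split_ifs
  · ring
  · linear_combination (-(f σ)) * e

/-- One ideal gate. -/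
private theorem Po_gate (h2 : (2 : K) ≠ 0) (y : K) (h0 : y ≠ 0) (h1 : y + 1 ≠ 0)
    (k l : ℕ) (g : ℕ × ℕ) (f : (ℕ → Bool) → K) :
    ev y (ex k l g) f = fun σ =>
      (((y + 1) ^ k / 2) ^ (2 * (if g.1 = 2 then 1 else 0)) *
        (y ^ l) ^ ((if g.1 = 0 then 1 else 0) + 2 * (if g.1 = 1 then 1 else 0))) *
        iop (((y - 1) / (y + 1)) ^ k) ((1 / y) ^ l) y g f σ := by
  unfold ex iop
  by_cases c0 : g.1 = 0
  · simp only [c0, if_true]
    rw [Po_R' y h0]
    funext σ
    simp
  · by_cases c1 : g.1 = 1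
    · simp only [c1, if_true, one_ne_zero, if_false]
      rw [ev_append, Po_A' y h0 l 1, Po_A' y h0 l 0]
      rw [opA_smul]
      funext σ
      simp only [OfNat.one_ne_ofNat, if_false, mul_zero, pow_zero, zero_add, mul_one, one_mul]
      ring
    · by_cases c2 : g.1 = 2
      · simp only [c2, if_true, OfNat.ofNat_ne_zero, OfNat.ofNat_ne_one, if_false]
        rw [ev_append, Po_E h2 y h1 k (g.2 + 1), Po_E h2 y h1 k g.2]
        rw [opE_smul]
        funext σ
        ring
      · simp only [c0, c1, c2, if_false]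
        have e1 : ev y [(0, 0)] f = opR 0 y 1 f := rfl
        rw [e1]
        funext σ
        simp

end

theorem ev_exw {K : Type} [Field K] (h2 : (2 : K) ≠ 0) (y : K) (h0 : y ≠ 0) (h1 : y + 1 ≠ 0)
    (k l : ℕ) (w : List (ℕ × ℕ)) (f : (ℕ → Bool) → K) :
    ev y (exw k l w) f = fun σ =>
      (((y + 1) ^ k / 2) ^ (2 * cE w) * (y ^ l) ^ (cR w + 2 * cA w)) *
        iv (((y - 1) / (y + 1)) ^ k) ((1 / y) ^ l) y w f σ := by
  induction w with
  | nil =>
    funext σ
    simp [exw, ev_nil, iv_nil, cE, cR, cA]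
  | cons g w ih =>
    have e1 : exw k l (g :: w) = ex k l g ++ exw k l w := by simp [exw]
    rw [e1, ev_append, ih, Po_gate h2 y h0 h1, iop_smul, iv_cons]
    have eE : cE (g :: w) = cE w + (if g.1 = 2 then 1 else 0) := by
      simp [cE, List.countP_cons]
    have eR : cR (g :: w) = cR w + (if g.1 = 0 then 1 else 0) := by
      simp [cR, List.countP_cons]
    have eA : cA (g :: w) = cA w + (if g.1 = 1 then 1 else 0) := by
      simp [cA, List.countP_cons]
    rw [eE, eR, eA]
    funext σ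
    simp only [mul_add, pow_add, pow_mul]
    ring

theorem ok_exw {m : ℕ} (hm : 2 ≤ m) {w : List (ℕ × ℕ)} (hw : OkI m w) (k l : ℕ) :
    OkW m (exw k l w) := by
  intro g hg
  unfold exw at hg
  rw [List.mem_flatMap] at hg
  obtain ⟨a, ha, hga⟩ := hg
  have h1 := hw a ha
  unfold ex at hga
  unfold OkG
  split_ifs at hga with c0 c1 c2
  · rw [List.mem_replicate] at hga
    obtain ⟨_, rfl⟩ := hga
    refine ⟨?_, ?_, ?_⟩ <;> simp <;> omega
  · rw [List.mem_append, List.mem_replicate, List.mem_replicate] at hga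
    rcases hga with ⟨_, rfl⟩ | ⟨_, rfl⟩
    · refine ⟨?_, ?_, ?_⟩ <;> simp <;> omega
    · refine ⟨?_, ?_, ?_⟩ <;> simp <;> omega
  · rw [List.mem_append, List.mem_replicate, List.mem_replicate] at hga
    rcases hga with ⟨_, rfl⟩ | ⟨_, rfl⟩
    · refine ⟨?_, ?_, ?_⟩ <;> simp <;> omega
    · refine ⟨?_, ?_, ?_⟩ <;> simp <;> omega
  · rw [List.mem_singleton] at hga
    subst hga
    refine ⟨?_, ?_, ?_⟩ <;> simp <;> omega

end Pool.Agent.TU
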