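import Pool.Agent.Lib.MP_e6c033_lc.Mg.G001

/-!
# Task Se: the partition function of the graph of a circuit

Proof.  For a state `s = (cur, nxt, es)` (`cur` of length `m`, entries `< nxt`, ends of the edges `< nxt`, `nxt ≥ 1`) and a word `w` put
`F(s, w) = ∑_{τ : Fin nxt → Bool, τ 0 = true} (∏_{e ∈ es} (if τ e.1 = τ e.2 then y else 1)) * ev y w 1 (fun j => τ (cur j))` (spins outside of the range: `false`; use `ext τ`).
Claim: `F(s, g :: w) = F(stp s g, w)` for a gate `g` that fits (`OkG m g`): `ev y (g :: w) 1 = eop y g (ev y w 1)` (`ev_cons`).  Kinds `0, 1`: the factor of `eop` is the factor of the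
new edge (for kind `1`: the edge `(0, cur j)` and `τ 0 = true`).  Kind `2`: `opE j y 1 f σ = y f σ + f (fl j σ) = ∑_b (if σ j = b then y else 1) f (σ with spin j := b)`, and the sum
over `τ' : Fin (nxt + 1) → Bool` is the sum over `τ` and the last spin `b` (`Fin.snoc`, `Fin.snocEquiv`/`Fin.consEquiv`-like equivalence); the spins of the wires after the gate are `σ` with
spin `j := b` (for wires `≥ m`: `cur.getD i 0 = 0`, the spin of the vertex `0`; no problem: same value before and after; or note that `ev y w 1 σ` depends only on the spins `< m` for `OkW m w`).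
So `F(ini m, w) = F(run m w, [])`.  `F(run m w, []) = ∑_{τ, τ 0 = true} ∏_e = zy / 2` (reversing all the spins is a bijection between `τ 0 = true` and `τ 0 = false` which preserves the
weight; the product over the edge list is the product over `Fin es.length`: `List.prod_ofFn`/`Fin.prod_univ_getElem`).
`F(ini m, w) = ∑_{τ : Fin (m + 1) → Bool, τ 0 = true} ev y w 1 (fun j => τ (j + 1)) = ssum m (ev y w 1)` (`Fin.cons`).
-/

set_option autoImplicit false

namespace Pool.Agent.TU

/-- The factor of an edge. -/
private def fac (y : ℚ) (τ : ℕ → Bool) (e : ℕ × ℕ) : ℚ := if τ e.1 = τ e.2 then y else 1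

private theorem fac_pos (y : ℚ) {τ : ℕ → Bool} {e : ℕ × ℕ} (h : τ e.1 = τ e.2) : fac y τ e = y :=
  if_pos h

private theorem fac_neg (y : ℚ) {τ : ℕ → Bool} {e : ℕ × ℕ} (h : τ e.1 ≠ τ e.2) : fac y τ e = 1 :=
  if_neg h

private theorem fac_congr (y : ℚ) {τ τ' : ℕ → Bool} {e : ℕ × ℕ} (h1 : τ e.1 = τ' e.1)
    (h2 : τ e.2 = τ' e.2) : fac y τ e = fac y τ' e := by
  unfold fac
  rw [h1, h2]

private theorem prod_congr (y : ℚ) {τ τ' : ℕ → Bool} {es : List (ℕ × ℕ)}
    (h : ∀ e ∈ es, fac y τ e = fac y τ' e) : (es.map (fac y τ)).prod = (es.map (fac y τ')).prod :=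
  congrArg List.prod (List.map_congr_left h)

/-- The weight of a state and a word. -/
private def wt (y : ℚ) (s : St) (w : List (ℕ × ℕ)) (τ : ℕ → Bool) : ℚ :=
  if τ 0 = true then
    (s.2.2.map (fac y τ)).prod * ev y w (fun _ => 1) (fun j => τ (s.1.getD j 0))
  else 0

private theorem ext_lt {n : ℕ} (σ : Fin n → Bool) {j : ℕ} (h : j < n) : ext σ j = σ ⟨j, h⟩ := by
  unfold ext
  rw [dif_pos h]

private theorem ext_ge {n : ℕ} (σ : Fin n → Bool) {j : ℕ} (h : n ≤ j) : ext σ j = false := by
  unfold ext
  rw [dif_neg (by omega)]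

private theorem ext_snoc {n : ℕ} (σ : Fin n → Bool) (b : Bool) :
    ext (Fin.snoc (α := fun _ => Bool) σ b) = Function.update (ext σ) n b := by
  funext j
  rcases lt_trichotomy j n with h | h | h
  · rw [Function.update_of_ne h.ne, ext_lt _ (by omega), ext_lt _ h]
    exact Fin.snoc_castSucc (α := fun _ => Bool) b σ ⟨j, h⟩
  · subst h
    rw [Function.update_self, ext_lt _ (by omega)]
    exact Fin.snoc_last (α := fun _ => Bool) b σ
  · rw [Function.update_of_ne h.ne', ext_ge _ (by omega), ext_ge _ (by omega)]

private theorem ssum_snoc (n : ℕ) (f : (ℕ → Bool) → ℚ) :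
    ssum (n + 1) f = ssum n (fun τ => f (Function.update τ n true) +
      f (Function.update τ n false)) := by
  unfold ssum
  rw [← (Fin.snocEquiv (fun _ : Fin (n + 1) => Bool)).sum_comp, Fintype.sum_prod_type_right]
  refine Finset.sum_congr rfl (fun σ _ => ?_)
  rw [Fintype.sum_bool]
  change f (ext (Fin.snoc (α := fun _ => Bool) σ true)) +
    f (ext (Fin.snoc (α := fun _ => Bool) σ false)) = _
  rw [ext_snoc, ext_snoc]

private theorem ext_cons {n : ℕ} (σ : Fin n → Bool) (b : Bool) :
    ext (Fin.cons (α := fun _ => Bool) b σ) = fun j => if j = 0 then b else ext σ (j - 1) := by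
  funext j
  rcases j with _ | j
  · rw [ext_lt _ (by omega), if_pos rfl]
    rfl
  · rw [if_neg (by omega), Nat.add_sub_cancel]
    by_cases h : j < n
    · rw [ext_lt _ (by omega), ext_lt _ h]
      exact Fin.cons_succ (α := fun _ => Bool) b σ ⟨j, h⟩
    · rw [ext_ge _ (by omega), ext_ge _ (by omega)]

private theorem ssum_cons (n : ℕ) (f : (ℕ → Bool) → ℚ) :
    ssum (n + 1) f = ssum n (fun τ => f (fun j => if j = 0 then true else τ (j - 1)) +
      f (fun j => if j = 0 then false else τ (j - 1))) := by
  unfold ssum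
  rw [← (Fin.consEquiv (fun _ : Fin (n + 1) => Bool)).sum_comp, Fintype.sum_prod_type_right]
  refine Finset.sum_congr rfl (fun σ _ => ?_)
  rw [Fintype.sum_bool]
  change f (ext (Fin.cons (α := fun _ => Bool) true σ)) +
    f (ext (Fin.cons (α := fun _ => Bool) false σ)) = _
  rw [ext_cons, ext_cons]

/-- The value of a word depends only on the spins of the wires. -/
private theorem ev_congr (y : ℚ) {m : ℕ} (w : List (ℕ × ℕ)) (hw : OkW m w) :
    ∀ σ σ' : ℕ → Bool, (∀ j, j < m → σ j = σ' j) →
      ev y w (fun _ => 1) σ = ev y w (fun _ => 1) σ' := by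
  induction w with
  | nil => intro σ σ' _; rfl
  | cons g w ih =>
    intro σ σ' h
    have hg : OkG m g := hw g (List.mem_cons_self)
    have ihw := ih (fun a ha => hw a (List.mem_cons_of_mem _ ha))
    rw [ev_cons]
    unfold eop
    split_ifs with h0 h1
    · unfold opR
      rw [ihw σ σ' h, h g.2 hg.1, h (g.2 + 1) (hg.2.1 h0)]
    · unfold opA
      rw [ihw σ σ' h, h g.2 hg.1]
    · unfold opE
      rw [ihw σ σ' h]
      congr 2
      refine ihw _ _ (fun j hj => ?_)
      unfold fl
      by_cases hj2 : j = g.2
      · subst hj2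
        rw [Function.update_self, Function.update_self, h _ hj]
      · rw [Function.update_of_ne hj2, Function.update_of_ne hj2, h _ hj]

/-- The invariants of a state. -/
private structure Inv (m : ℕ) (s : St) : Prop where
  len : s.1.length = m
  pos : 0 < s.2.1
  lt : ∀ j, s.1.getD j 0 < s.2.1
  es : ∀ e ∈ s.2.2, e.1 < s.2.1 ∧ e.2 < s.2.1

private theorem getD_set {l : List ℕ} {j : ℕ} (hj : j < l.length) (a i : ℕ) :
    (l.set j a).getD i 0 = if i = j then a else l.getD i 0 := by
  rw [List.getD_eq_getElem?_getD, List.getElem?_set, List.getD_eq_getElem?_getD]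
  by_cases h : i = j
  · subst h
    simp [hj]
  · rw [if_neg (Ne.symm h), if_neg h]

private theorem inv_ini (m : ℕ) : Inv m (ini m) := by
  refine ⟨by simp [ini], by simp [ini], ?_, ?_⟩
  · intro j
    change ((List.range m).map (· + 1)).getD j 0 < m + 1
    rw [List.getD_eq_getElem?_getD, List.getElem?_map]
    by_cases h : j < m
    · rw [List.getElem?_range h]
      simpa using h
    · rw [List.getElem?_eq_none (by simpa using h)]
      simp
  · intro e he
    exact absurd he (List.not_mem_nil)

private theorem inv_stp {m : ℕ} {s : St} {g : ℕ × ℕ} (hs : Inv m s) (hg : OkG m g) :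
    Inv m (stp s g) := by
  unfold stp
  split_ifs with h0 h1
  · refine ⟨hs.len, hs.pos, hs.lt, ?_⟩
    intro e he
    rcases List.mem_cons.1 he with rfl | he
    · exact ⟨hs.lt _, hs.lt _⟩
    · exact hs.es e he
  · refine ⟨hs.len, hs.pos, hs.lt, ?_⟩
    intro e he
    rcases List.mem_cons.1 he with rfl | he
    · exact ⟨hs.pos, hs.lt _⟩
    · exact hs.es e he
  · have hj : g.2 < s.1.length := by rw [hs.len]; exact hg.1
    refine ⟨by simpa using hs.len, Nat.succ_pos _, ?_, ?_⟩
    · intro i
      change (s.1.set g.2 s.2.1).getD i 0 < s.2.1 + 1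
      rw [getD_set hj]
      split_ifs
      · exact Nat.lt_succ_self _
      · exact (hs.lt i).trans (Nat.lt_succ_self _)
    · intro e he
      rcases List.mem_cons.1 he with rfl | he
      · exact ⟨(hs.lt _).trans (Nat.lt_succ_self _), Nat.lt_succ_self _⟩
      · exact ⟨(hs.es e he).1.trans (Nat.lt_succ_self _), (hs.es e he).2.trans (Nat.lt_succ_self _)⟩

/-- One gate. -/
private theorem step (y : ℚ) {m : ℕ} {s : St} {g : ℕ × ℕ} {w : List (ℕ × ℕ)} (hs : Inv m s)
    (hg : OkG m g) :
    ssum s.2.1 (wt y s (g :: w)) = ssum (stp s g).2.1 (wt y (stp s g) w) := by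
  obtain ⟨cur, n, es⟩ := s
  obtain ⟨k, j⟩ := g
  by_cases h0 : k = 0
  · subst h0
    have h1 : stp (cur, n, es) (0, j) = (cur, n, (cur.getD j 0, cur.getD (j + 1) 0) :: es) := by
      simp [stp]
    rw [h1]
    refine congrArg (ssum n) ?_
    funext τ
    unfold wt
    by_cases h2 : τ 0 = true
    · rw [if_pos h2, if_pos h2, ev_cons, List.map_cons, List.prod_cons]
      have h3 : eop y (0, j) (ev y w fun _ => 1) (fun i => τ (cur.getD i 0)) =
          fac y τ (cur.getD j 0, cur.getD (j + 1) 0) *
            ev y w (fun _ => 1) (fun i => τ (cur.getD i 0)) := rfl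
      change (es.map (fac y τ)).prod * _ = _ * (es.map (fac y τ)).prod * _
      rw [h3]
      ring
    · rw [if_neg h2, if_neg h2]
  by_cases h1 : k = 1
  · subst h1
    have h1 : stp (cur, n, es) (1, j) = (cur, n, (0, cur.getD j 0) :: es) := by
      simp [stp]
    rw [h1]
    refine congrArg (ssum n) ?_
    funext τ
    unfold wt
    by_cases h2 : τ 0 = true
    · rw [if_pos h2, if_pos h2, ev_cons, List.map_cons, List.prod_cons]
      have h3 : eop y (1, j) (ev y w fun _ => 1) (fun i => τ (cur.getD i 0)) =
          fac y τ (0, cur.getD j 0) *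
            ev y w (fun _ => 1) (fun i => τ (cur.getD i 0)) := by
        change (if τ (cur.getD j 0) = true then y else 1) * _ = (if τ 0 = τ (cur.getD j 0) then y else 1) * _
        rw [h2]
        congr 1
        exact if_congr eq_comm rfl rfl
      change (es.map (fac y τ)).prod * _ = _ * (es.map (fac y τ)).prod * _
      rw [h3]
      ring
    · rw [if_neg h2, if_neg h2]
  · have h2 : stp (cur, n, es) (k, j) = (cur.set j n, n + 1, (cur.getD j 0, n) :: es) := by
      simp [stp, h0, h1]
    rw [h2]
    change ssum n _ = ssum (n + 1) _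
    rw [ssum_snoc]
    refine congrArg (ssum n) ?_
    funext τ
    have hlt : ∀ i, cur.getD i 0 < n := hs.lt
    have hpos : 0 < n := hs.pos
    have hj : j < cur.length := by rw [show cur.length = m from hs.len]; exact hg.1
    have hu : ∀ (b : Bool) (i : ℕ), i < n → Function.update τ n b i = τ i := fun b i hi =>
      Function.update_of_ne hi.ne _ _
    have hb : ∀ b : Bool, wt y (cur.set j n, n + 1, (cur.getD j 0, n) :: es) w
        (Function.update τ n b) = if τ 0 = true then (if τ (cur.getD j 0) = b then y else 1) *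
          (es.map (fac y τ)).prod *
            ev y w (fun _ => 1) (Function.update (fun i => τ (cur.getD i 0)) j b) else 0 := by
      intro b
      unfold wt
      rw [hu b 0 hpos]
      by_cases h3 : τ 0 = true
      · rw [if_pos h3, if_pos h3, List.map_cons, List.prod_cons]
        have e1 : fac y (Function.update τ n b) (cur.getD j 0, n) =
            if τ (cur.getD j 0) = b then y else 1 := by
          unfold fac
          rw [hu b _ (hlt j), Function.update_self]
        have e2 : (es.map (fac y (Function.update τ n b))).prod = (es.map (fac y τ)).prod :=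
          prod_congr y (fun e he => fac_congr y (hu b _ (hs.es e he).1) (hu b _ (hs.es e he).2))
        have e3 : (fun i => Function.update τ n b ((cur.set j n).getD i 0)) =
            Function.update (fun i => τ (cur.getD i 0)) j b := by
          funext i
          rw [getD_set hj]
          by_cases hi : i = j
          · subst hi
            rw [if_pos rfl, Function.update_self, Function.update_self]
          · rw [if_neg hi, Function.update_of_ne hi, hu b _ (hlt i)]
        rw [e1]
        change _ * (es.map (fac y (Function.update τ n b))).prod *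
          ev y w (fun _ => 1) (fun i => Function.update τ n b ((cur.set j n).getD i 0)) = _
        rw [e2, e3]
      · rw [if_neg h3, if_neg h3]
    rw [hb, hb]
    unfold wt
    by_cases h3 : τ 0 = true
    · rw [if_pos h3, if_pos h3, if_pos h3, ev_cons]
      have h4 : eop y (k, j) (ev y w fun _ => 1) (fun i => τ (cur.getD i 0)) =
          y * ev y w (fun _ => 1) (fun i => τ (cur.getD i 0)) + 1 *
            ev y w (fun _ => 1) (Function.update (fun i => τ (cur.getD i 0)) j
              (!τ (cur.getD j 0))) := by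
        unfold eop
        rw [if_neg h0, if_neg h1]
        rfl
      change (es.map (fac y τ)).prod * _ = _
      rw [h4]
      have h5 : Function.update (fun i => τ (cur.getD i 0)) j (τ (cur.getD j 0)) =
          fun i => τ (cur.getD i 0) := Function.update_eq_self j (fun i => τ (cur.getD i 0))
      rcases hc : τ (cur.getD j 0) with _ | _
      · rw [hc] at h5
        rw [h5]
        simp
        ring
      · rw [hc] at h5
        rw [h5]
        simp
        ring
    · rw [if_neg h3, if_neg h3, if_neg h3, add_zero]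

/-- All the gates. -/
private theorem steps (y : ℚ) {m : ℕ} (w : List (ℕ × ℕ)) (hw : OkW m w) : ∀ s : St, Inv m s →
    ssum s.2.1 (wt y s w) = ssum (w.foldl stp s).2.1 (wt y (w.foldl stp s) []) ∧
      Inv m (w.foldl stp s) := by
  induction w with
  | nil => intro s hs; exact ⟨rfl, hs⟩
  | cons g w ih =>
    intro s hs
    have hg : OkG m g := hw g (List.mem_cons_self)
    have ihw := ih (fun a ha => hw a (List.mem_cons_of_mem _ ha))
    have h1 := ihw (stp s g) (inv_stp hs hg)
    rw [List.foldl_cons]
    exact ⟨(step y hs hg).trans h1.1, h1.2⟩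

/-- The initial state. -/
private theorem start (y : ℚ) {m : ℕ} (w : List (ℕ × ℕ)) (hw : OkW m w) :
    ssum (m + 1) (wt y (ini m) w) = ssum m (ev y w (fun _ => 1)) := by
  have h0 : ∀ τ : ℕ → Bool, wt y (ini m) w (fun j => if j = 0 then true else τ (j - 1)) +
      wt y (ini m) w (fun j => if j = 0 then false else τ (j - 1)) =
        ev y w (fun _ => 1) (fun j => if (ini m).1.getD j 0 = 0 then true
          else τ ((ini m).1.getD j 0 - 1)) := by
    intro τ
    unfold wt
    rw [if_pos (by simp), if_neg (by simp), add_zero]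
    change (List.map _ []).prod * _ = _
    rw [List.map_nil, List.prod_nil, one_mul]
  rw [ssum_cons]
  refine Finset.sum_congr rfl (fun σ _ => (h0 (ext σ)).trans ?_)
  refine ev_congr y w hw _ _ (fun j hj => ?_)
  have h1 : (ini m).1.getD j 0 = j + 1 := by
    change ((List.range m).map (· + 1)).getD j 0 = j + 1
    rw [List.getD_eq_getElem?_getD, List.getElem?_map, List.getElem?_range hj]
    rfl
  rw [h1, if_neg (by omega), Nat.add_sub_cancel]

private theorem sum_inst (n : ℕ) (i j : Fintype (Fin n → Bool)) (f : (Fin n → Bool) → ℚ) :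
    @Finset.sum (Fin n → Bool) ℚ _ (@Finset.univ (Fin n → Bool) i) f =
      @Finset.sum (Fin n → Bool) ℚ _ (@Finset.univ (Fin n → Bool) j) f := by
  refine Finset.sum_congr ?_ (fun _ _ => rfl)
  ext σ
  constructor
  · intro _; exact @Finset.mem_univ _ j _
  · intro _; exact @Finset.mem_univ _ i _

/-- The partition function of encoded data. -/
private theorem zy_eg (y : ℚ) (G : EG) :
    G.toM.zy y = ssum G.n (fun τ => (G.es.map (fac y τ)).prod) := by
  have key : ∀ σ : Fin G.n → Bool, (∏ e : G.toM.E,
      (@ite ℚ (σ (G.toM.ends e).1 = σ (G.toM.ends e).2) (instDecidableEqBool _ _) y 1)) =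
      (G.es.map (fac y (ext σ))).prod := by
    intro σ
    rw [← Fin.prod_univ_fun_getElem]
    refine Finset.prod_congr rfl (fun i _ => ?_)
    unfold fac
    rw [ext_lt σ (G.ok _ (List.getElem_mem i.2)).1, ext_lt σ (G.ok _ (List.getElem_mem i.2)).2]
    exact if_congr Iff.rfl rfl rfl
  have h1 : ssum G.n (fun τ => (G.es.map (fac y τ)).prod) =
      ∑ σ : Fin G.n → Bool, (∏ e : G.toM.E,
      (@ite ℚ (σ (G.toM.ends e).1 = σ (G.toM.ends e).2) (instDecidableEqBool _ _) y 1)) :=
    Finset.sum_congr rfl (fun σ _ => (key σ).symm)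
  rw [h1]
  exact sum_inst G.n _ _ _

/-- Reversing all the spins. -/
private theorem half (y : ℚ) {n : ℕ} (hn : 0 < n) {es : List (ℕ × ℕ)}
    (hes : ∀ e ∈ es, e.1 < n ∧ e.2 < n) :
    ssum n (fun τ => (es.map (fac y τ)).prod) =
      2 * ssum n (fun τ => if τ 0 = true then (es.map (fac y τ)).prod else 0) := by
  have h1 : ssum n (fun τ => if τ 0 = true then (es.map (fac y τ)).prod else 0) =
      ssum n (fun τ => if τ 0 = true then 0 else (es.map (fac y τ)).prod) := by
    unfold ssum
    have hinv : Function.Involutive (fun (σ : Fin n → Bool) => fun i => !(σ i)) := by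
      intro σ
      funext i
      exact Bool.not_not _
    rw [← Equiv.sum_comp (hinv.toPerm _)]
    refine Finset.sum_congr rfl (fun σ _ => ?_)
    change (if ext (fun i => !(σ i)) 0 = true then
      (es.map (fac y (ext (fun i => !(σ i))))).prod else 0) = _
    have h2 : ∀ i, i < n → ext (fun i => !(σ i)) i = !(ext σ i) := by
      intro i hi
      rw [ext_lt _ hi, ext_lt _ hi]
    have h3 : (es.map (fac y (ext (fun i => !(σ i))))).prod = (es.map (fac y (ext σ))).prod := by
      refine prod_congr y (fun e he => ?_)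
      unfold fac
      rw [h2 _ (hes e he).1, h2 _ (hes e he).2]
      exact if_congr (by simp) rfl rfl
    rw [h3, h2 0 hn]
    beta_reduce
    by_cases h5 : ext σ 0 = true
    · rw [if_pos h5, h5]
      rfl
    · rw [if_neg h5, Bool.eq_false_iff.2 h5]
      rfl
  rw [two_mul]
  nth_rewrite 2 [h1]
  unfold ssum
  rw [← Finset.sum_add_distrib]
  refine Finset.sum_congr rfl (fun σ _ => ?_)
  beta_reduce
  by_cases h5 : ext σ 0 = true
  · rw [if_pos h5, if_pos h5, add_zero]
  · rw [if_neg h5, if_neg h5, zero_add]

theorem zy_mk (y : ℚ) {m : ℕ} {w : List (ℕ × ℕ)} (hw : OkW m w) :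
    (mk m w).toM.zy y = 2 * ssum m (ev y w (fun _ => 1)) := by
  obtain ⟨h1, h2⟩ := steps y w hw (ini m) (inv_ini m)
  rw [zy_eg, mk_n hw, mk_es hw]
  refine (half y h2.pos h2.es).trans ?_
  congr 1
  rw [← start y w hw]
  refine Eq.trans ?_ h1.symm
  refine congrArg (ssum (run m w).2.1) ?_
  funext τ
  unfold wt
  by_cases h3 : τ 0 = true
  · rw [if_pos h3, if_pos h3, ev_nil, mul_one]
    try rfl
  · rw [if_neg h3, if_neg h3]

end Pool.Agent.TU
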