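import Pool.Agent.Lib.MP_e6c033_lc.TU.Gc

/-!
# Task Wo: the word of a graph

Proofs.
* `kp`: `kp I (w ++ w') = kp I w * kp I w'`; `kp I (ts j) = 256 ^ (j + 1) * I` (`ts 0`: 3 gates `R`, 2 gates `A`, 4 gates `E`: `(-I) ^ 3 * 1 * (4 I) ^ 4 = 256 I`; `fS j`: `(-I) ^ 2 * 4 I = -4 I`, and
  `(-4 I) ^ 4 = 256`; `ts_succ`).  So `iv (ts j) f = kp (ts j) * f (sw j ·)`.
* permutations: if `iv w f = fun σ => kp w * f (σ ∘ π)` for all `f` and `iv w' f = fun σ => kp w' * f (σ ∘ π')` for all `f` then `iv (w ++ w') f = fun σ => kp (w ++ w') * f (σ ∘ π ∘ π')`.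
  `U := (List.range a).reverse.flatMap ts`: `π_U = s_(a-1) ∘ ... ∘ s_0` (`s_j` exchanges `j, j + 1`): `π_U 0 = a`, `π_U i = i` for `i > a`, `π_U i = i - 1` for `1 ≤ i ≤ a`;
  `V := (List.range (b' - 1)).reverse.flatMap (fun i => ts (i + 1))`, `b' = b` if `a < b`, `b' = b + 1` if `b < a` (so `b' ≥ 1`): `π_V 0 = 0`, `π_V 1 = b'`.  `π := π_U ∘ π_V`: `π 0 = a`, `π 1 = b`.
  The words `V' = (List.range (b' - 1)).flatMap ..`, `U'` have the inverse permutations (same swaps in the reverse order).
  Induction on `a` with `List.range_succ`: `(List.range (a + 1)).reverse.flatMap ts = ts a ++ (List.range a).reverse.flatMap ts`.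
* `iv_we`: `iv (U ++ V ++ [(3,0)] ++ V' ++ U') f (σ) = kp * (if (σ ∘ π) 0 = (σ ∘ π) 1 then y else 1) * f (σ ∘ π ∘ π⁻¹)`.
* `iv_wg`: induction on the list.  * `ok_wg`: the gates of `ts j` are `(t, i)` with `i ≤ j`.
-/

set_option autoImplicit false

namespace Pool.Agent.TU

/-- The scalar of an ideal word at `z = u = -I`. -/
def kp {K : Type} [CommRing K] (I : K) (w : List (ℕ × ℕ)) : K :=
  (-I) ^ cR w * (-1) ^ cA w * (4 * I) ^ cE w

theorem kp_append {K : Type} [CommRing K] (I : K) (w w' : List (ℕ × ℕ)) :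
    kp I (w ++ w') = kp I w * kp I w' := by
  simp only [kp, cR, cA, cE, List.countP_append, pow_add]
  ring

private theorem Wo_kp_nil {K : Type} [CommRing K] (I : K) : kp I [] = 1 := by
  simp [kp, cR, cA, cE]

private theorem Wo_kp_fS {K : Type} [CommRing K] (I : K) (hI : I * I = -1) (j : ℕ) :
    kp I (fS j) = -4 * I := by
  have h : kp I (fS j) = (-I) ^ 2 * (-1) ^ 0 * (4 * I) ^ 1 := by
    simp [kp, cR, cA, cE, fS]
  rw [h]
  linear_combination (4 * I) * hI

theorem kp_ts {K : Type} [CommRing K] (I : K) (hI : I * I = -1) (j : ℕ) :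
    kp I (ts j) = 256 ^ (j + 1) * I := by
  induction j with
  | zero =>
    have h : kp I (ts 0) = (-I) ^ 3 * (-1) ^ 2 * (4 * I) ^ 4 := by
      simp [kp, cR, cA, cE, ts, ts0, fS]
    rw [h]
    linear_combination (-256 * I ^ 5 + 256 * I ^ 3 - 256 * I) * hI
  | succ j ih =>
    rw [ts_succ, kp_append, kp_append, kp_append, kp_append, ih, Wo_kp_fS I hI, Wo_kp_fS I hI]
    rw [pow_succ 256 (j + 1)]
    linear_combination (256 * 256 ^ (j + 1) * I * (I * I - 1)) * hI

/-- The word `w` acts by the permutation `π`. -/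
private def Wo_Acts {K : Type} [CommRing K] (I y : K) (w : List (ℕ × ℕ)) (π : Equiv.Perm ℕ) : Prop :=
  ∀ f : (ℕ → Bool) → K, iv (-I) (-I) y w f = fun σ => kp I w * f (fun i => σ (π i))

private theorem Wo_Acts_nil {K : Type} [CommRing K] (I y : K) : Wo_Acts I y [] 1 := by
  intro f
  funext σ
  rw [iv_nil, Wo_kp_nil, one_mul]
  rfl

private theorem Wo_Acts_append {K : Type} [CommRing K] {I y : K} {w w' : List (ℕ × ℕ)}
    {π π' : Equiv.Perm ℕ} (h : Wo_Acts I y w π) (h' : Wo_Acts I y w' π') :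
    Wo_Acts I y (w ++ w') (π * π') := by
  intro f
  funext σ
  rw [iv_append, h' f, h _, kp_append]
  simp only [Equiv.Perm.coe_mul, Function.comp]
  ring

private theorem Wo_Acts_ts {K : Type} [CommRing K] (I : K) (hI : I * I = -1) (y : K) (j : ℕ) :
    Wo_Acts I y (ts j) (Equiv.swap j (j + 1)) := by
  intro f
  rw [iv_ts I hI, kp_ts I hI]
  rfl

/-- The permutation of a list of swaps. -/
private def Wo_P (l : List ℕ) : Equiv.Perm ℕ := (l.map (fun j => Equiv.swap j (j + 1))).prod

private theorem Wo_P_cons (j : ℕ) (l : List ℕ) :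
    Wo_P (j :: l) = Equiv.swap j (j + 1) * Wo_P l := by
  simp [Wo_P]

private theorem Wo_Acts_flat {K : Type} [CommRing K] (I : K) (hI : I * I = -1) (y : K)
    (l : List ℕ) : Wo_Acts I y (l.flatMap ts) (Wo_P l) := by
  induction l with
  | nil => exact Wo_Acts_nil I y
  | cons j l ih =>
    rw [List.flatMap_cons, Wo_P_cons]
    exact Wo_Acts_append (Wo_Acts_ts I hI y j) ih

private theorem Wo_P_append (l l' : List ℕ) : Wo_P (l ++ l') = Wo_P l * Wo_P l' := by
  simp [Wo_P]

private theorem Wo_P_reverse (l : List ℕ) : Wo_P l * Wo_P l.reverse = 1 := by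
  induction l with
  | nil => simp [Wo_P]
  | cons j l ih =>
    rw [List.reverse_cons, Wo_P_append, Wo_P_cons]
    have h : Wo_P [j] = Equiv.swap j (j + 1) := by simp [Wo_P]
    rw [h]
    calc Equiv.swap j (j + 1) * Wo_P l * (Wo_P l.reverse * Equiv.swap j (j + 1))
        = Equiv.swap j (j + 1) * (Wo_P l * Wo_P l.reverse) * Equiv.swap j (j + 1) := by group
      _ = 1 := by rw [ih, mul_one, Equiv.swap_mul_self]

private theorem Wo_PU (a : ℕ) : Wo_P (List.range a).reverse 0 = a ∧
    (∀ i, a < i → Wo_P (List.range a).reverse i = i) ∧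
    (∀ i, 1 ≤ i → i ≤ a → Wo_P (List.range a).reverse i = i - 1) := by
  induction a with
  | zero =>
    refine ⟨by simp [Wo_P], fun i _ => by simp [Wo_P], fun i h1 h2 => by omega⟩
  | succ a ih =>
    obtain ⟨h1, h2, h3⟩ := ih
    have hr : (List.range (a + 1)).reverse = a :: (List.range a).reverse := by
      rw [List.range_succ, List.reverse_append]
      rfl
    rw [hr, Wo_P_cons]
    refine ⟨?_, ?_, ?_⟩
    · rw [Equiv.Perm.mul_apply, h1, Equiv.swap_apply_left]
    · intro i hi
      rw [Equiv.Perm.mul_apply, h2 i (by omega), Equiv.swap_apply_of_ne_of_ne (by omega) (by omega)]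
    · intro i hi1 hi2
      rw [Equiv.Perm.mul_apply]
      by_cases h : i ≤ a
      · rw [h3 i hi1 h, Equiv.swap_apply_of_ne_of_ne (by omega) (by omega)]
      · have hi : i = a + 1 := by omega
        subst hi
        rw [h2 _ (by omega), Equiv.swap_apply_right]
        rfl

private theorem Wo_PV (n : ℕ) : Wo_P ((List.range n).map (· + 1)).reverse 0 = 0 ∧
    Wo_P ((List.range n).map (· + 1)).reverse 1 = n + 1 := by
  induction n with
  | zero => simp [Wo_P]
  | succ n ih =>
    obtain ⟨h1, h2⟩ := ih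
    have hr : ((List.range (n + 1)).map (· + 1)).reverse =
        (n + 1) :: ((List.range n).map (· + 1)).reverse := by
      rw [List.range_succ, List.map_append, List.reverse_append]
      rfl
    rw [hr, Wo_P_cons]
    refine ⟨?_, ?_⟩
    · rw [Equiv.Perm.mul_apply, h1, Equiv.swap_apply_of_ne_of_ne (by omega) (by omega)]
    · rw [Equiv.Perm.mul_apply, h2, Equiv.swap_apply_left]

private theorem Wo_we (a b : ℕ) : we a b =
    ((List.range a).reverse.flatMap ts ++
      ((List.range ((if a < b then b else b + 1) - 1)).map (· + 1)).reverse.flatMap ts) ++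
    ([(3, 0)] ++
    (((List.range ((if a < b then b else b + 1) - 1)).map (· + 1)).flatMap ts ++
    (List.range a).flatMap ts)) := by
  have h1 : ∀ l : List ℕ, (l.map (· + 1)).flatMap ts = l.flatMap (fun i => ts (i + 1)) := by
    intro l
    rw [List.flatMap_map]
  have h2 : ∀ l : List ℕ, (l.map (· + 1)).reverse.flatMap ts =
      l.reverse.flatMap (fun i => ts (i + 1)) := by
    intro l
    rw [← List.map_reverse, List.flatMap_map]
  unfold we
  rw [h1, h2]
  simp only [List.append_assoc]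

private theorem Wo_iv3 {K : Type} [CommRing K] (z u y : K) (g : (ℕ → Bool) → K) :
    iv z u y [(3, 0)] g = fun σ => (if σ 0 = σ 1 then y else 1) * g σ := by
  rfl

theorem iv_we {K : Type} [CommRing K] (I : K) (hI : I * I = -1) (y : K) {a b : ℕ} (hab : a ≠ b)
    (f : (ℕ → Bool) → K) :
    iv (-I) (-I) y (we a b) f =
      fun σ => kp I (we a b) * ((if σ a = σ b then y else 1) * f σ) := by
  obtain ⟨n, hn⟩ : ∃ n, n = (if a < b then b else b + 1) - 1 := ⟨_, rfl⟩
  rw [Wo_we, ← hn]
  obtain ⟨LU, hLU⟩ : ∃ LU, LU = List.range a := ⟨_, rfl⟩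
  obtain ⟨LV, hLV⟩ : ∃ LV, LV = (List.range n).map (· + 1) := ⟨_, rfl⟩
  rw [← hLU, ← hLV]
  have hA := Wo_Acts_append (Wo_Acts_flat I hI y LU.reverse) (Wo_Acts_flat I hI y LV.reverse)
  have hB := Wo_Acts_append (Wo_Acts_flat I hI y LV) (Wo_Acts_flat I hI y LU)
  have hinv : Wo_P LU.reverse * Wo_P LV.reverse * (Wo_P LV * Wo_P LU) = 1 := by
    have h1 : Wo_P LV.reverse * Wo_P LV = 1 := by
      have := Wo_P_reverse LV.reverse
      rwa [List.reverse_reverse] at this
    have h2 : Wo_P LU.reverse * Wo_P LU = 1 := by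
      have := Wo_P_reverse LU.reverse
      rwa [List.reverse_reverse] at this
    calc Wo_P LU.reverse * Wo_P LV.reverse * (Wo_P LV * Wo_P LU)
        = Wo_P LU.reverse * (Wo_P LV.reverse * Wo_P LV) * Wo_P LU := by group
      _ = 1 := by rw [h1, mul_one, h2]
  have h0 : (Wo_P LU.reverse * Wo_P LV.reverse) 0 = a := by
    rw [Equiv.Perm.mul_apply, hLV, (Wo_PV n).1, hLU, (Wo_PU a).1]
  have h1 : (Wo_P LU.reverse * Wo_P LV.reverse) 1 = b := by
    rw [Equiv.Perm.mul_apply, hLV, (Wo_PV n).2, hLU]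
    by_cases h : a < b
    · rw [if_pos h] at hn
      have h' : n + 1 = b := by omega
      rw [h']
      exact (Wo_PU a).2.1 b h
    · rw [if_neg h] at hn
      have h' : n + 1 = b + 1 := by omega
      rw [h', (Wo_PU a).2.2 (b + 1) (by omega) (by omega)]
      rfl
  funext σ
  rw [iv_append, hA, iv_append, hB]
  have hk3 : kp I [(3, 0)] = 1 := by simp [kp, cR, cA, cE]
  rw [Wo_iv3]
  have hσ : (fun i => σ ((Wo_P LU.reverse * Wo_P LV.reverse) ((Wo_P LV * Wo_P LU) i))) = σ := by
    funext i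
    rw [← Equiv.Perm.mul_apply, hinv]
    rfl
  simp only [kp_append, hk3, one_mul, h0, h1, hσ]
  ring

theorem iv_wg {K : Type} [CommRing K] (I : K) (hI : I * I = -1) (y : K) (es : List (ℕ × ℕ))
    (σ : ℕ → Bool) :
    iv (-I) (-I) y (wg es) (fun _ => 1) σ = kp I (wg es) *
      ((es.filter (fun e => decide (e.1 ≠ e.2))).map
        (fun e => if σ e.1 = σ e.2 then y else 1)).prod := by
  induction es generalizing σ with
  | nil =>
    have h : wg [] = [] := rfl
    rw [h, iv_nil, Wo_kp_nil]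
    simp
  | cons e es ih =>
    have hw : wg (e :: es) = (if e.1 = e.2 then [] else we e.1 e.2) ++ wg es := by
      simp only [wg, List.flatMap_cons]
    have ih' : iv (-I) (-I) y (wg es) (fun _ => 1) = fun σ => kp I (wg es) *
      ((es.filter (fun e => decide (e.1 ≠ e.2))).map
        (fun e => if σ e.1 = σ e.2 then y else 1)).prod := funext ih
    rw [hw, iv_append, kp_append, ih']
    by_cases he : e.1 = e.2
    · have hd : decide (e.1 ≠ e.2) = false := by simp [he]
      rw [if_pos he, iv_nil, Wo_kp_nil, one_mul, List.filter_cons_of_neg (by simp [he])]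
    · rw [if_neg he, iv_we I hI y he, List.filter_cons_of_pos (by simp [he]), List.map_cons,
        List.prod_cons]
      ring

private theorem Wo_ts_le {j : ℕ} : ∀ g ∈ ts j, g.2 ≤ j := by
  intro g hg
  have hfS : ∀ i, ∀ g ∈ fS i, g.2 = i := by
    intro i g hg
    simp only [fS, List.mem_cons, List.not_mem_nil, or_false] at hg
    rcases hg with h | h | h <;> rw [h]
  unfold ts at hg
  rw [List.mem_append, List.mem_append] at hg
  rcases hg with (hg | hg) | hg
  · obtain ⟨i, hi, hg⟩ := List.mem_flatMap.1 hg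
    rw [List.mem_reverse, List.mem_range] at hi
    rcases List.mem_append.1 hg with h | h
    · rw [hfS _ _ h]; omega
    · rw [hfS _ _ h]; omega
  · unfold ts0 at hg
    rcases List.mem_append.1 hg with h | h
    · rw [hfS _ _ h]; omega
    · simp only [List.mem_cons, List.not_mem_nil, or_false] at h
      rcases h with h | h | h | h | h | h <;> rw [h] <;> exact Nat.zero_le _
  · obtain ⟨i, hi, hg⟩ := List.mem_flatMap.1 hg
    rw [List.mem_range] at hi
    rcases List.mem_append.1 hg with h | h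
    · rw [hfS _ _ h]; omega
    · rw [hfS _ _ h]; omega

theorem ok_wg {m : ℕ} (hm : 2 ≤ m) {es : List (ℕ × ℕ)} (h : ∀ e ∈ es, e.1 < m ∧ e.2 < m) :
    OkI m (wg es) := by
  intro g hg
  obtain ⟨e, he, hg⟩ := List.mem_flatMap.1 hg
  obtain ⟨h1, h2⟩ := h e he
  by_cases hee : e.1 = e.2
  · rw [if_pos hee] at hg
    exact absurd hg (List.not_mem_nil)
  · rw [if_neg hee] at hg
    unfold we at hg
    simp only [List.mem_append] at hg
    have hb : ∀ i, i < (if e.1 < e.2 then e.2 else e.2 + 1) - 1 → i + 2 < m := by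
      intro i hi
      split_ifs at hi <;> omega
    rcases hg with (((hg | hg) | hg) | hg) | hg
    · obtain ⟨i, hi, hg⟩ := List.mem_flatMap.1 hg
      rw [List.mem_reverse, List.mem_range] at hi
      have := Wo_ts_le g hg
      omega
    · obtain ⟨i, hi, hg⟩ := List.mem_flatMap.1 hg
      rw [List.mem_reverse, List.mem_range] at hi
      have := Wo_ts_le g hg
      have := hb i hi
      omega
    · simp only [List.mem_cons, List.not_mem_nil, or_false] at hg
      rw [hg]
      show 0 + 1 < m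
      omega
    · obtain ⟨i, hi, hg⟩ := List.mem_flatMap.1 hg
      rw [List.mem_range] at hi
      have := Wo_ts_le g hg
      have := hb i hi
      omega
    · obtain ⟨i, hi, hg⟩ := List.mem_flatMap.1 hg
      rw [List.mem_range] at hi
      have := Wo_ts_le g hg
      omega

end Pool.Agent.TU
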