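import Pool.Agent.Lib.MP_e6c033_lc.TU.Tb
import Pool.Agent.Lib.MP_e6c033_lc.TU.Se
import Pool.Agent.Lib.MP_e6c033_lc.TU.Po
import Pool.Agent.Lib.MP_e6c033_lc.TU.Wo
import Pool.Agent.Lib.MP_e6c033_lc.TU.Pl

/-!
# Task Co: the reduction formula

Proof (in `ℂ`; `w := wg G.es`, `n := G.n`, `m := n + 2`).  `y ≠ 0, 1, -1` (`y = 1` contradicts `(x - 1)(y - 1) = 2`).
1. `OkI m w` (`ok_wg`), `OkW m (exw ..)` (`ok_exw`), `zy (hh G k l) = 2 ssum m (ev y (exw (k+1) (l+1) w) 1)` (`zy_mk`) `= 2 sc ssum m (iv (t^(k+1)) (s^(l+1)) y w 1)` (`ev_exw`), cast to `ℂ`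
   (the operators commute with the cast: `ev` over `ℚ`, cast: show `((ssum m (ev y w 1) : ℚ) : ℂ) = ssum m (ev (y : ℂ) w 1)` by induction on `w`).
2. `interp` with `a = t = (y - 1)/(y + 1)`, `b = s = 1 / y`, `ζ = ζ' = -I`; `t, s` are rational, `≠ 0, 1, -1`, so their powers are different (`|t| ≠ 1` and monotonicity of powers: `pow_right_injective₀`-like,
   take absolute values).
3. `iv_wg` with `Complex.I`: `ssum m (iv (-I) (-I) y w 1) = kp I w * ∑_{σ : Fin m → Bool} ∏_{non-loops} = kp I w * 4 * zy G / y ^ loops`: the sum over the spins of the wires `n, n + 1` gives `4`,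
   loops give `y` each in `zy`.
4. `tutte_eq` for `G.toM` and for `(hh G k l).toM`.  `kp ≠ 0`, all the denominators are `≠ 0`.
-/

set_option autoImplicit false

namespace Pool.Agent.TU

open Finset

/-- The queries. -/
def hh (G : EG) (k l : ℕ) : EG := mk (G.n + 2) (exw (k + 1) (l + 1) (wg G.es))

/-- The coefficient of the query `(k, l)`. -/
noncomputable def cf (x y : ℚ) (G : EG) (k l : ℕ) : ℂ :=
  ((x : ℂ) - 1) ^ G.toM.rk univ / ((x : ℂ) - 1) ^ (hh G k l).toM.rk univ * 2 ^ (hh G k l).n / 2 ^ G.n *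
    (y : ℂ) ^ loops G.es / 8 / kp Complex.I (wg G.es) *
    (Lg (((y : ℂ) - 1) / (y + 1)) (2 * cE (wg G.es)) (-Complex.I) k *
      Lg (1 / (y : ℂ)) (cR (wg G.es) + 2 * cA (wg G.es)) (-Complex.I) l) /
    ((((y : ℂ) + 1) ^ (k + 1) / 2) ^ (2 * cE (wg G.es)) *
      ((y : ℂ) ^ (l + 1)) ^ (cR (wg G.es) + 2 * cA (wg G.es)))

private theorem Co_inj {q : ℚ} (h0 : q ≠ 0) (h1 : |q| ≠ 1) (c : ℂ) (hc : c = (q : ℂ)) :
    Function.Injective (fun k : ℕ => c ^ (k + 1)) := by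
  intro k l h
  simp only at h
  rw [hc] at h
  have h2 : q ^ (k + 1) = q ^ (l + 1) := by exact_mod_cast h
  have h3 : |q| ^ (k + 1) = |q| ^ (l + 1) := by rw [← abs_pow, ← abs_pow, h2]
  have h4 := pow_right_injective₀ (abs_pos.mpr h0) h1 h3
  omega

private theorem Co_ev {R S : Type} [CommRing R] [CommRing S] (φ : R →+* S) (y : R)
    (w : List (ℕ × ℕ)) (f : (ℕ → Bool) → R) (σ : ℕ → Bool) :
    φ (ev y w f σ) = ev (φ y) w (fun τ => φ (f τ)) σ := by
  induction w generalizing σ with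
  | nil => rfl
  | cons g w ih =>
    rw [ev_cons, ev_cons]
    have ih' : ev (φ y) w (fun τ => φ (f τ)) = fun σ => φ (ev y w f σ) := by
      funext τ
      exact (ih τ).symm
    rw [ih']
    unfold eop
    split_ifs
    · simp only [opR, map_mul]
      split_ifs <;> simp
    · simp only [opA, map_mul]
      split_ifs <;> simp
    · simp only [opE, map_mul, map_add, map_one]

private theorem Co_ssum_ev (y : ℚ) (m : ℕ) (w : List (ℕ × ℕ)) :
    ((ssum m (ev y w (fun _ => 1)) : ℚ) : ℂ) = ssum m (ev (y : ℂ) w (fun _ => 1)) := by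
  unfold ssum
  rw [Rat.cast_sum]
  apply sum_congr rfl
  intro σ _
  have h := Co_ev (Rat.castHom ℂ) y w (fun _ => 1) (ext σ)
  simpa using h

private theorem Co_sum1 (n : ℕ) (F : (ℕ → Bool) → ℂ)
    (hF : ∀ σ τ : ℕ → Bool, (∀ j < n, σ j = τ j) → F σ = F τ) :
    ssum (n + 1) F = 2 * ssum n F := by
  unfold ssum
  rw [← Fintype.sum_equiv (Fin.snocEquiv (fun _ => Bool))
    (fun p : Bool × (Fin n → Bool) => F (ext (Fin.snoc (α := fun _ => Bool) p.2 p.1)))
    (fun σ => F (ext σ)) (fun p => rfl)]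
  rw [Fintype.sum_prod_type, Fintype.sum_bool, two_mul]
  have h : ∀ b : Bool, ∀ σ : Fin n → Bool,
      F (ext (Fin.snoc (α := fun _ => Bool) σ b)) = F (ext σ) := by
    intro b σ
    apply hF
    intro j hj
    unfold ext
    rw [dif_pos (Nat.lt_succ_of_lt hj), dif_pos hj]
    have h1 : (⟨j, Nat.lt_succ_of_lt hj⟩ : Fin (n + 1)) = Fin.castSucc ⟨j, hj⟩ := rfl
    rw [h1, Fin.snoc_castSucc]
  congr 1
  · exact sum_congr rfl (fun σ _ => h _ σ)
  · exact sum_congr rfl (fun σ _ => h _ σ)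

private theorem Co_zyG (G : EG) (y : ℚ) :
    ((G.toM.zy y : ℚ) : ℂ) =
      ssum G.n (fun σ => (G.es.map (fun e => if σ e.1 = σ e.2 then (y : ℂ) else 1)).prod) := by
  classical
  unfold MGraph.zy ssum
  rw [Rat.cast_sum]
  refine @Fintype.sum_equiv (G.toM.V → Bool) (Fin G.n → Bool) ℂ _ _ _
    (Equiv.refl (Fin G.n → Bool)) _ _ ?_
  intro σ
  change _ = (List.map (fun e : ℕ × ℕ => if @ext G.n σ e.1 = @ext G.n σ e.2 then (y : ℂ) else 1)
    G.es).prod
  rw [Rat.cast_prod, ← Fin.prod_univ_fun_getElem]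
  refine @Fintype.prod_equiv G.toM.E (Fin G.es.length) ℂ _ _ _
    (Equiv.refl (Fin G.es.length)) _ _ ?_
  intro i
  have e1 : @ext G.n σ (G.es[i.1]).1 = σ ⟨(G.es[i.1]).1, (G.ok _ (List.getElem_mem i.2)).1⟩ := by
    unfold ext
    rw [dif_pos]
  have e2 : @ext G.n σ (G.es[i.1]).2 = σ ⟨(G.es[i.1]).2, (G.ok _ (List.getElem_mem i.2)).2⟩ := by
    unfold ext
    rw [dif_pos]
  change _ = if @ext G.n σ (G.es[i.1]).1 = @ext G.n σ (G.es[i.1]).2 then (y : ℂ) else 1
  rw [e1, e2]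
  by_cases h : σ ⟨(G.es[i.1]).1, (G.ok _ (List.getElem_mem i.2)).1⟩ =
      σ ⟨(G.es[i.1]).2, (G.ok _ (List.getElem_mem i.2)).2⟩
  · rw [if_pos h]
    have h' : σ (G.toM.ends i).1 = σ (G.toM.ends i).2 := h
    rw [if_pos h']
  · rw [if_neg h]
    have h' : ¬ σ (G.toM.ends i).1 = σ (G.toM.ends i).2 := h
    rw [if_neg h', Rat.cast_one]

private theorem Co_loops (es : List (ℕ × ℕ)) (y : ℂ) (σ : ℕ → Bool) :
    (es.map (fun e => if σ e.1 = σ e.2 then y else 1)).prod =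
      y ^ loops es * ((es.filter (fun e => decide (e.1 ≠ e.2))).map
        (fun e => if σ e.1 = σ e.2 then y else 1)).prod := by
  induction es with
  | nil => simp [loops]
  | cons e es ih =>
    by_cases h : e.1 = e.2
    · have h1 : loops (e :: es) = loops es + 1 := by
        unfold loops
        rw [List.countP_cons, if_pos (by simp [h])]
      rw [List.map_cons, List.prod_cons, ih, h1, List.filter_cons_of_neg (by simp [h]),
        if_pos (by rw [h])]
      ring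
    · have h1 : loops (e :: es) = loops es := by
        unfold loops
        rw [List.countP_cons, if_neg (by simp [h])]
        omega
      rw [List.map_cons, List.prod_cons, ih, h1, List.filter_cons_of_pos (by simp [h]),
        List.map_cons, List.prod_cons]
      ring

private theorem Co_kp (w : List (ℕ × ℕ)) : kp Complex.I w ≠ 0 := by
  unfold kp
  have hI : (Complex.I : ℂ) ≠ 0 := Complex.I_ne_zero
  have h1 : (-Complex.I : ℂ) ≠ 0 := neg_ne_zero.mpr hI
  have h2 : (-1 : ℂ) ≠ 0 := by norm_num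
  have h3 : (4 * Complex.I : ℂ) ≠ 0 := mul_ne_zero (by norm_num) hI
  exact mul_ne_zero (mul_ne_zero (pow_ne_zero _ h1) (pow_ne_zero _ h2)) (pow_ne_zero _ h3)

private theorem Co_iv (G : EG) (y : ℚ) :
    (y : ℂ) ^ loops G.es * ssum (G.n + 2) (iv (-Complex.I) (-Complex.I) (y : ℂ) (wg G.es)
      (fun _ => 1)) = kp Complex.I (wg G.es) * (4 * ((G.toM.zy y : ℚ) : ℂ)) := by
  have hiv : iv (-Complex.I) (-Complex.I) (y : ℂ) (wg G.es) (fun _ => 1) =
      fun σ => kp Complex.I (wg G.es) * ((G.es.filter (fun e => decide (e.1 ≠ e.2))).map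
        (fun e => if σ e.1 = σ e.2 then (y : ℂ) else 1)).prod := by
    funext σ
    exact iv_wg Complex.I Complex.I_mul_I (y : ℂ) G.es σ
  have hdep : ∀ σ τ : ℕ → Bool, (∀ j < G.n, σ j = τ j) →
      (G.es.map (fun e => if σ e.1 = σ e.2 then (y : ℂ) else 1)).prod =
      (G.es.map (fun e => if τ e.1 = τ e.2 then (y : ℂ) else 1)).prod := by
    intro σ τ h
    congr 1
    apply List.map_congr_left
    intro e he
    rw [h _ (G.ok e he).1, h _ (G.ok e he).2]
  have h1 : ssum (G.n + 2) (fun σ => (G.es.map (fun e => if σ e.1 = σ e.2 then (y : ℂ)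
      else 1)).prod) = 4 * ((G.toM.zy y : ℚ) : ℂ) := by
    rw [Co_sum1 (G.n + 1) _ (fun σ τ h => hdep σ τ (fun j hj => h j (by omega))),
      Co_sum1 G.n _ hdep, Co_zyG]
    ring
  rw [hiv, ← h1]
  unfold ssum
  rw [mul_sum, mul_sum]
  apply sum_congr rfl
  intro σ _
  dsimp only
  rw [Co_loops G.es (y : ℂ) (ext σ)]
  ring

private theorem Co_term (A B P Q Y κ L1 L2 SC S : ℂ) (hB : B ≠ 0) (hP : P ≠ 0) (hSC : SC ≠ 0) :
    A / B * P / Q * Y / 8 / κ * (L1 * L2) / SC * (B / P * (2 * (SC * S))) =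
      A / Q * (Y / 4 / κ) * (L1 * L2 * S) := by
  have e : A / B * P / Q * Y / 8 / κ * (L1 * L2) / SC * (B / P * (2 * (SC * S))) =
      (B / B) * (P / P) * (SC / SC) * (A / Q * (Y / 4 / κ) * (L1 * L2 * S)) := by ring
  rw [e, div_self hB, div_self hP, div_self hSC]
  ring

private theorem Co_tutte (x y : ℚ) (hxy : (x - 1) * (y - 1) = 2) (H : EG) :
    ((H.toM.tutte x y : ℚ) : ℂ) =
      ((x : ℂ) - 1) ^ H.toM.rk univ / 2 ^ H.n * ((H.toM.zy y : ℚ) : ℂ) := by
  rw [MGraph.tutte_eq H.toM x y hxy]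
  have hc : Fintype.card H.toM.V = H.n := Fintype.card_fin H.n
  rw [hc]
  push_cast
  ring

theorem formula (x y : ℚ) (hxy : (x - 1) * (y - 1) = 2) (h0 : y ≠ 0) (h1 : y ≠ -1) (G : EG) :
    ((G.toM.tutte x y : ℚ) : ℂ) =
      ∑ k ∈ range (2 * cE (wg G.es) + 1), ∑ l ∈ range (cR (wg G.es) + 2 * cA (wg G.es) + 1),
        cf x y G k l * (((hh G k l).toM.tutte x y : ℚ) : ℂ) := by
  have hx1 : x - 1 ≠ 0 := by
    intro h
    rw [h, zero_mul] at hxy
    norm_num at hxy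
  have hy1 : y ≠ 1 := by
    intro h
    rw [h] at hxy
    norm_num at hxy
  have hx1c : ((x : ℂ) - 1) ≠ 0 := by
    intro h
    apply hx1
    have h2 : (((x - 1 : ℚ)) : ℂ) = 0 := by push_cast; exact h
    exact_mod_cast h2
  have h0c : (y : ℂ) ≠ 0 := by exact_mod_cast h0
  have h1q : y + 1 ≠ 0 := fun h => h1 (by linarith)
  have h1c : (y : ℂ) + 1 ≠ 0 := by exact_mod_cast h1q
  have ha : Function.Injective (fun k : ℕ => (((y : ℂ) - 1) / (y + 1)) ^ (k + 1)) := by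
    apply Co_inj (q := (y - 1) / (y + 1))
    · exact div_ne_zero (sub_ne_zero.mpr hy1) h1q
    · intro h
      rw [abs_div, div_eq_one_iff_eq (abs_ne_zero.mpr h1q), abs_eq_abs] at h
      rcases h with h | h
      · linarith
      · apply h0
        linarith
    · push_cast
      rfl
  have hb : Function.Injective (fun k : ℕ => (1 / (y : ℂ)) ^ (k + 1)) := by
    apply Co_inj (q := 1 / y)
    · exact div_ne_zero one_ne_zero h0
    · intro h
      rw [abs_div, abs_one, div_eq_one_iff_eq (abs_ne_zero.mpr h0)] at h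
      rcases (abs_eq (zero_le_one (α := ℚ))).mp h.symm with h | h
      · exact hy1 h
      · exact h1 h
    · push_cast
      rfl
  have hokI : OkI (G.n + 2) (wg G.es) := ok_wg (by omega) (fun e he => by
    have := G.ok e he
    omega)
  have hzy : ∀ k l : ℕ, (((hh G k l).toM.zy y : ℚ) : ℂ) =
      2 * (((((y : ℂ) + 1) ^ (k + 1) / 2) ^ (2 * cE (wg G.es)) *
      ((y : ℂ) ^ (l + 1)) ^ (cR (wg G.es) + 2 * cA (wg G.es))) *
        ssum (G.n + 2) (iv ((((y : ℂ) - 1) / (y + 1)) ^ (k + 1)) ((1 / (y : ℂ)) ^ (l + 1)) (y : ℂ)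
          (wg G.es) (fun _ => 1))) := by
    intro k l
    unfold hh
    rw [zy_mk y (ok_exw (by omega) hokI (k + 1) (l + 1)), Rat.cast_mul, Co_ssum_ev,
      ev_exw two_ne_zero (y : ℂ) h0c h1c]
    unfold ssum
    rw [mul_sum (a := (((y : ℂ) + 1) ^ (k + 1) / 2) ^ (2 * cE (wg G.es)) *
      ((y : ℂ) ^ (l + 1)) ^ (cR (wg G.es) + 2 * cA (wg G.es)))]
    norm_num
  have hterm : ∀ k l : ℕ, cf x y G k l * (((hh G k l).toM.tutte x y : ℚ) : ℂ) =
      ((x : ℂ) - 1) ^ G.toM.rk univ / 2 ^ G.n * ((y : ℂ) ^ loops G.es / 4 /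
        kp Complex.I (wg G.es)) *
      (Lg (((y : ℂ) - 1) / (y + 1)) (2 * cE (wg G.es)) (-Complex.I) k *
        Lg (1 / (y : ℂ)) (cR (wg G.es) + 2 * cA (wg G.es)) (-Complex.I) l *
        ssum (G.n + 2) (iv ((((y : ℂ) - 1) / (y + 1)) ^ (k + 1)) ((1 / (y : ℂ)) ^ (l + 1)) (y : ℂ)
          (wg G.es) (fun _ => 1))) := by
    intro k l
    rw [Co_tutte x y hxy (hh G k l), hzy]
    unfold cf
    exact Co_term _ _ _ _ _ _ _ _ _ _ (pow_ne_zero _ hx1c) (pow_ne_zero _ two_ne_zero)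
      (mul_ne_zero (pow_ne_zero _ (div_ne_zero (pow_ne_zero _ h1c) two_ne_zero))
        (pow_ne_zero _ (pow_ne_zero _ h0c)))
  have hint := interp (y : ℂ) (((y : ℂ) - 1) / (y + 1)) (1 / (y : ℂ)) (-Complex.I) (-Complex.I)
    ha hb (G.n + 2) (wg G.es)
  simp only [hterm]
  simp only [← mul_sum]
  rw [← hint, Co_tutte x y hxy G]
  have hfin := Co_iv G y
  have hk := Co_kp (wg G.es)
  have e : (y : ℂ) ^ loops G.es / 4 / kp Complex.I (wg G.es) *
      ssum (G.n + 2) (iv (-Complex.I) (-Complex.I) (y : ℂ) (wg G.es) (fun _ => 1)) =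
      ((G.toM.zy y : ℚ) : ℂ) := by
    have e2 : (y : ℂ) ^ loops G.es / 4 / kp Complex.I (wg G.es) *
      ssum (G.n + 2) (iv (-Complex.I) (-Complex.I) (y : ℂ) (wg G.es) (fun _ => 1)) =
      ((y : ℂ) ^ loops G.es *
      ssum (G.n + 2) (iv (-Complex.I) (-Complex.I) (y : ℂ) (wg G.es) (fun _ => 1))) / 4 /
        kp Complex.I (wg G.es) := by ring
    rw [e2, hfin]
    field_simp
  rw [mul_assoc, e]

end Pool.Agent.TU
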