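import Pool.Agent.Lib.MP_e6c033_lc.TU.MoDefs

/-!
# A criterion for minors
-/

set_option autoImplicit false

namespace Pool.Agent.TU

/-- A criterion for the existence of a model of a graph without loops and parallel edges: every edge of `H` joins two branch
sets which are joined by an edge of `G`, and every vertex of a branch set is the base point or is joined to
a vertex of the same branch set with a smaller value of `μ`. -/
theorem isMinor_of_simple {H G : MGraph} (φ : G.V → Option H.V)
    (hinj : Function.Injective H.ends) (hloop : ∀ e, (H.ends e).1 ≠ (H.ends e).2)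
    (hedge : ∀ e, ∃ f, φ (G.ends f).1 = some (H.ends e).1 ∧ φ (G.ends f).2 = some (H.ends e).2)
    (base : H.V → G.V) (hbase : ∀ v, φ (base v) = some v) (μ : G.V → ℕ)
    (hpred : ∀ (w : G.V) (v : H.V), φ w = some v → w = base v ∨
      ∃ w', φ w' = some v ∧ μ w' < μ w ∧
        ((∃ f, G.ends f = (w', w)) ∨ ∃ f, G.ends f = (w, w'))) : IsMinor H G := by
  choose ε hε using hedge
  have unused : ∀ (f : G.E) (v : H.V), φ (G.ends f).1 = some v → φ (G.ends f).2 = some v →
      ∀ e, ε e ≠ f := by
    rintro f v h1 h2 e rfl
    apply hloop e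
    have h3 := (hε e).1.symm.trans (h1.trans (h2.symm.trans (hε e).2))
    exact Option.some_injective _ h3
  have key : ∀ (n : ℕ) (w : G.V) (v : H.V), μ w = n → φ w = some v →
      Relation.EqvGen (Con φ ε v) (base v) w := by
    intro n
    induction n using Nat.strong_induction_on with
    | _ n ih =>
      intro w v hμ hw
      rcases hpred w v hw with h | ⟨w', hw', hlt, hf⟩
      · rw [h]
        exact Relation.EqvGen.refl _
      · have h1 := ih (μ w') (hμ ▸ hlt) w' v rfl hw'
        refine Relation.EqvGen.trans _ _ _ h1 ?_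
        rcases hf with ⟨f, hf⟩ | ⟨f, hf⟩
        · exact Relation.EqvGen.rel _ _ ⟨hw', hw, f,
            unused f v (by rw [hf]; exact hw') (by rw [hf]; exact hw), hf⟩
        · exact Relation.EqvGen.symm _ _ (Relation.EqvGen.rel _ _ ⟨hw, hw', f,
            unused f v (by rw [hf]; exact hw) (by rw [hf]; exact hw'), hf⟩)
  refine ⟨φ, ε, ?_, ?_, ?_, ?_⟩
  · intro e e' h
    apply hinj
    have h1 := hε e
    have h2 := hε e'
    rw [h] at h1
    exact Prod.ext (Option.some_injective _ (h1.1.symm.trans h2.1))
      (Option.some_injective _ (h1.2.symm.trans h2.2))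
  · intro e
    exact Or.inl (hε e)
  · intro v
    exact ⟨base v, hbase v⟩
  · intro w w' v hw hw'
    exact Relation.EqvGen.trans _ _ _ (Relation.EqvGen.symm _ _ (key _ w v rfl hw))
      (key _ w' v rfl hw')

theorem dg_inj (k : ℕ) : Function.Injective (dg k).ends := Subtype.val_injective

theorem dg_loop (k : ℕ) (e : (dg k).E) : ((dg k).ends e).1 ≠ ((dg k).ends e).2 := by
  obtain ⟨p, hp⟩ := e
  show p.1 ≠ p.2
  rcases hp with ⟨r, c, c', h, rfl⟩ | ⟨r, r', c, h, rfl⟩ | ⟨r, c, h, rfl⟩
  · intro h1
    simp only [Option.some.injEq, Prod.mk.injEq] at h1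
    have := congrArg Fin.val h1.2
    omega
  · intro h1
    simp only [Option.some.injEq, Prod.mk.injEq] at h1
    have := congrArg Fin.val h1.1
    omega
  · simp

end Pool.Agent.TU
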