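import Pool.Agent.Lib.MP_e6c033_lc.Mg.G001

/-!
# Task Gc: the swap of the wires `j` and `j + 1`

Proofs.
* `FF_conj`: an identity for the 8 values of `f` at the configurations which differ from `σ` in the spins `j, j + 1, j + 2`.  `FF / 2` is the (signed) exchange of the wires:
  in the other basis (`fhat(x) = ∑_s (-1)^(x s) f(s)`) it is `x ↦ x` with `x_j, x_(j+1)` exchanged and the sign `-1` if both are `1`.  Direct proof: for fixed `σ`
  let `F a b c := f (σ with spins j, j + 1, j + 2 := a, b, c)`, translate `FF j`, `FF (j + 1)`, `sw j`, `sw (j + 1)` into operators on `Bool → Bool → Bool → K`, and check the 8 cases by `simp`, `ring`.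
* `iv_ts`: induction on `j`.  `ts (j + 1) = (fS j ++ fS (j + 1)) ++ ts j ++ (fS (j + 1) ++ fS j)` (`ts_succ`: `List.range_succ`, `List.reverse_append`, `List.flatMap_append`).
  `iv_append`, `iv_fS` four times, `iv_smul`, `FF_smul`, the induction hypothesis, `FF_conj`: the factor is `(-2 I) ^ 4 * 16 * 256 ^ (j + 1) I = 256 ^ (j + 2) I`.
Checked by computer.
-/

set_option autoImplicit false

namespace Pool.Agent.TU

/-- Auxiliary configuration. -/
private def GcU (j : ℕ) (σ : ℕ → Bool) (a b c : Bool) : ℕ → Bool := fun i =>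
  if i = j then a else if i = j + 1 then b else if i = j + 2 then c else σ i

private theorem GcU_self (j : ℕ) (σ : ℕ → Bool) :
    GcU j σ (σ j) (σ (j + 1)) (σ (j + 2)) = σ := by
  funext i
  unfold GcU
  split_ifs with h1 h2 h3
  · rw [h1]
  · rw [h2]
  · rw [h3]
  · rfl

private theorem GcU_fl0 (j : ℕ) (σ : ℕ → Bool) (a b c : Bool) :
    fl j (GcU j σ a b c) = GcU j σ (!a) b c := by
  funext i
  by_cases h1 : i = j
  · subst h1
    simp [fl, GcU]
  · simp [fl, GcU, h1]

private theorem GcU_fl1 (j : ℕ) (σ : ℕ → Bool) (a b c : Bool) :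
    fl (j + 1) (GcU j σ a b c) = GcU j σ a (!b) c := by
  funext i
  by_cases h1 : i = j + 1
  · subst h1
    simp [fl, GcU]
  · simp [fl, GcU, h1]

private theorem GcU_fl2 (j : ℕ) (σ : ℕ → Bool) (a b c : Bool) :
    fl (j + 1 + 1) (GcU j σ a b c) = GcU j σ a b (!c) := by
  funext i
  have h0 : ¬ j + 1 + 1 = j := by omega
  by_cases h1 : i = j + 2
  · subst h1
    simp [fl, GcU, h0]
  · have h2 : ¬ i = j + 1 + 1 := h1
    simp [fl, GcU, h1]

private theorem GcU_sw0 (j : ℕ) (σ : ℕ → Bool) (a b c : Bool) :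
    sw j (GcU j σ a b c) = GcU j σ b a c := by
  funext i
  unfold sw
  by_cases h1 : i = j
  · subst h1
    rw [Equiv.swap_apply_left]
    simp [GcU]
  · by_cases h2 : i = j + 1
    · subst h2
      rw [Equiv.swap_apply_right]
      simp [GcU]
    · rw [Equiv.swap_apply_of_ne_of_ne h1 h2]
      simp [GcU, h1, h2]

private theorem GcU_sw1 (j : ℕ) (σ : ℕ → Bool) (a b c : Bool) :
    sw (j + 1) (GcU j σ a b c) = GcU j σ a c b := by
  funext i
  have h0 : ¬ j + 1 + 1 = j := by omega
  unfold sw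
  by_cases h1 : i = j + 1
  · subst h1
    rw [Equiv.swap_apply_left]
    simp [GcU, h0]
  · by_cases h2 : i = j + 1 + 1
    · subst h2
      rw [Equiv.swap_apply_right]
      simp [GcU, h0]
    · rw [Equiv.swap_apply_of_ne_of_ne h1 h2]
      have h3 : ¬ i = j + 2 := h2
      simp [GcU, h1, h3]

private theorem GcFF0 {K : Type} [CommRing K] (j : ℕ) (f : (ℕ → Bool) → K) (σ : ℕ → Bool)
    (a b c : Bool) : FF j f (GcU j σ a b c) =
      if a = b then f (GcU j σ a b c) + f (GcU j σ (!a) b c) + f (GcU j σ a (!b) c)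
        - f (GcU j σ (!a) (!b) c)
      else -f (GcU j σ a b c) + f (GcU j σ (!a) b c) + f (GcU j σ a (!b) c)
        + f (GcU j σ (!a) (!b) c) := by
  have h1 : GcU j σ a b c j = a := by simp [GcU]
  have h2 : GcU j σ a b c (j + 1) = b := by simp [GcU]
  unfold FF
  rw [GcU_fl1, GcU_fl0, GcU_fl0, h1, h2]

private theorem GcFF1 {K : Type} [CommRing K] (j : ℕ) (f : (ℕ → Bool) → K) (σ : ℕ → Bool)
    (a b c : Bool) : FF (j + 1) f (GcU j σ a b c) =
      if b = c then f (GcU j σ a b c) + f (GcU j σ a (!b) c) + f (GcU j σ a b (!c))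
        - f (GcU j σ a (!b) (!c))
      else -f (GcU j σ a b c) + f (GcU j σ a (!b) c) + f (GcU j σ a b (!c))
        + f (GcU j σ a (!b) (!c)) := by
  have h1 : GcU j σ a b c (j + 1) = b := by simp [GcU]
  have h0 : ¬ j + 1 + 1 = j := by omega
  have h2 : GcU j σ a b c (j + 1 + 1) = c := by simp [GcU, h0]
  unfold FF
  rw [GcU_fl2, GcU_fl1, GcU_fl1, h1, h2]

theorem FF_conj {K : Type} [CommRing K] (j : ℕ) (f : (ℕ → Bool) → K) :
    FF j (FF (j + 1) (fun τ => FF (j + 1) (FF j f) (sw j τ))) = fun σ => 16 * f (sw (j + 1) σ) := by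
  funext σ
  rw [← GcU_self j σ]
  generalize σ j = a
  generalize σ (j + 1) = b
  generalize σ (j + 2) = c
  have key : ∀ a b c : Bool, (fun τ => FF (j + 1) (FF j f) (sw j τ)) (GcU j σ a b c) =
      FF (j + 1) (FF j f) (GcU j σ b a c) := by
    intro a b c
    show FF (j + 1) (FF j f) (sw j (GcU j σ a b c)) = _
    rw [GcU_sw0]
  show _ = 16 * f (sw (j + 1) (GcU j σ a b c))
  rw [GcU_sw1]
  cases a <;> cases b <;> cases c <;>
    simp only [GcFF0, GcFF1, key, if_true, if_false, Bool.not_true, Bool.not_false,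
      reduceCtorEq] <;> ring

theorem ts_succ (j : ℕ) :
    ts (j + 1) = (fS j ++ fS (j + 1)) ++ ts j ++ (fS (j + 1) ++ fS j) := by
  unfold ts
  rw [List.range_succ, List.reverse_append, List.flatMap_append, List.flatMap_append]
  simp [List.append_assoc]

theorem iv_ts {K : Type} [CommRing K] (I : K) (hI : I * I = -1) (y : K) (j : ℕ)
    (f : (ℕ → Bool) → K) :
    iv (-I) (-I) y (ts j) f = fun σ => (256 ^ (j + 1) * I) * f (sw j σ) := by
  induction j generalizing f with
  | zero =>
    have h : ts 0 = ts0 := by simp [ts]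
    rw [h, iv_ts0 I hI]
    funext σ
    ring
  | succ j ih =>
    rw [ts_succ, iv_append, iv_append, iv_append, iv_append]
    have A1 : iv (-I) (-I) y (fS (j + 1)) (iv (-I) (-I) y (fS j) f) =
        fun σ => ((-2 * I) * (-2 * I)) * FF (j + 1) (FF j f) σ := by
      rw [iv_fS I hI y j f, iv_smul, iv_fS I hI y (j + 1)]
      funext σ
      ring
    have A3 : ∀ (d : K) (g : (ℕ → Bool) → K),
        iv (-I) (-I) y (fS j) (iv (-I) (-I) y (fS (j + 1)) (fun σ => d * g σ)) =
        fun σ => (d * (-2 * I) * (-2 * I)) * FF j (FF (j + 1) g) σ := by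
      intro d g
      have h2 : iv (-I) (-I) y (fS (j + 1)) (fun σ => d * g σ) =
          fun σ => (d * (-2 * I)) * FF (j + 1) g σ := by
        rw [iv_smul, iv_fS I hI y (j + 1)]
        funext σ
        ring
      rw [h2, iv_smul, iv_fS I hI y j]
      funext σ
      ring
    have A2 : iv (-I) (-I) y (ts j) (fun σ => ((-2 * I) * (-2 * I)) * FF (j + 1) (FF j f) σ) =
        fun σ => (((-2 * I) * (-2 * I)) * (256 ^ (j + 1) * I)) *
          (fun τ => FF (j + 1) (FF j f) (sw j τ)) σ := by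
      rw [iv_smul, ih]
      funext σ
      ring
    rw [A1, A2, A3, FF_conj]
    funext σ
    have hI2 : I ^ 2 = -1 := by rw [pow_two]; exact hI
    have hI4 : I ^ 4 = 1 := by
      have : I ^ 4 = (I ^ 2) ^ 2 := by ring
      rw [this, hI2]; ring
    have h5 : -2 * I * (-2 * I) * (256 ^ (j + 1) * I) * (-2 * I) * (-2 * I) *
        (16 * f (sw (j + 1) σ)) = (256 ^ (j + 1) * 256 * I) * f (sw (j + 1) σ) * I ^ 4 := by
      ring
    rw [h5, hI4, pow_succ 256 (j + 1)]
    ring

end Pool.Agent.TU
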