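import Pool.Agent.Lib.MP_e6c033_lc.TU.MoDefs

/-!
# Task Kg: the graphs which do not have the minor `H` form a minor-closed class

Proofs (each operation: a model of `H` in the smaller graph gives a model in `G`).
* isomorphism `(f, g)` from `G` to `G'`: `φ w := φ' (f w)`, `ε := g.symm ∘ ε'`; ends may be exchanged; `Con` steps may be reversed (`EqvGen.symm`).
* `delE`: `φ := φ'`, `ε e := (ε' e).1`; a `Con` step of `G.delE e₀` by the edge `f` is a `Con` step of `G` by `f.1`.
* `delV`: `φ w := if h : w = v then none else φ' ⟨w, h⟩`, `ε e := (ε' e).1`.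
* `contr`: `φ w := φ' (G.mg e₀ h w)`, `ε e := (ε' e).1`.  Let `a = (G.ends e₀).1`, `b = (G.ends e₀).2` (`mg b = a`, `mg w = w` otherwise).  `e₀` is not used and joins `a` and `b`, which are in the same
  branch set (if `φ a = some v` then `Con φ ε v a b`).  Every `w` with `φ w = some v` is equivalent to `(G.mg e₀ h w).1`.  A `Con` step of the contraction from `(mg p)` to `(mg q)` by the edge `f` with
  `G.ends f = (p, q)` gives `(mg p).1 ~ p ~ q ~ (mg q).1` in `G`.
-/

set_option autoImplicit false

namespace Pool.Agent.TU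

theorem isMinor_of_iso {H G G' : MGraph} (hi : MGraph.Iso G G') (h : IsMinor H G') :
    IsMinor H G := by
  obtain ⟨f, g, hfg⟩ := hi
  obtain ⟨φ', ε', hm⟩ := h
  refine ⟨fun w => φ' (f w), fun e => g.symm (ε' e), ?_, ?_, ?_, ?_⟩
  · intro e1 e2 h12
    exact hm.inj (g.symm.injective h12)
  · intro e
    have h1 := hfg (g.symm (ε' e))
    rw [g.apply_symm_apply] at h1
    have h2 := hm.ends e
    rcases h1 with h1 | h1
    · rw [h1] at h2
      exact h2
    · rw [h1] at h2
      rcases h2 with h2 | h2
      · exact Or.inr ⟨h2.2, h2.1⟩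
      · exact Or.inl ⟨h2.2, h2.1⟩
  · intro v
    obtain ⟨w, hw⟩ := hm.surj v
    refine ⟨f.symm w, ?_⟩
    show φ' (f (f.symm w)) = some v
    rw [f.apply_symm_apply]
    exact hw
  · intro w w' v hw hw'
    have key : ∀ a b : G'.V, Relation.EqvGen (Con φ' ε' v) a b →
        Relation.EqvGen (Con (H := H) (G := G) (fun w => φ' (f w)) (fun e => g.symm (ε' e)) v)
          (f.symm a) (f.symm b) := by
      intro a b hab
      induction hab with
      | rel a b hc =>
        obtain ⟨h1, h2, e, h3, h4⟩ := hc
        have h5 := hfg (g.symm e)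
        rw [g.apply_symm_apply, h4] at h5
        have h6 : ∀ e', g.symm (ε' e') ≠ g.symm e := fun e' h7 => h3 e' (g.symm.injective h7)
        rcases h5 with h5 | h5
        · have ha : f.symm a = (G.ends (g.symm e)).1 := by
            rw [Equiv.symm_apply_eq]
            exact congrArg Prod.fst h5
          have hb : f.symm b = (G.ends (g.symm e)).2 := by
            rw [Equiv.symm_apply_eq]
            exact congrArg Prod.snd h5
          refine Relation.EqvGen.rel _ _ ⟨?_, ?_, g.symm e, h6, ?_⟩
          · show φ' (f (f.symm a)) = some v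
            rw [f.apply_symm_apply]; exact h1
          · show φ' (f (f.symm b)) = some v
            rw [f.apply_symm_apply]; exact h2
          · rw [ha, hb]
        · have ha : f.symm a = (G.ends (g.symm e)).2 := by
            rw [Equiv.symm_apply_eq]
            exact congrArg Prod.fst h5
          have hb : f.symm b = (G.ends (g.symm e)).1 := by
            rw [Equiv.symm_apply_eq]
            exact congrArg Prod.snd h5
          refine Relation.EqvGen.symm _ _ (Relation.EqvGen.rel _ _ ⟨?_, ?_, g.symm e, h6, ?_⟩)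
          · show φ' (f (f.symm b)) = some v
            rw [f.apply_symm_apply]; exact h2
          · show φ' (f (f.symm a)) = some v
            rw [f.apply_symm_apply]; exact h1
          · rw [ha, hb]
      | refl a => exact Relation.EqvGen.refl _
      | symm a b _ ih => exact Relation.EqvGen.symm _ _ ih
      | trans a b c _ _ ih1 ih2 => exact Relation.EqvGen.trans _ _ _ ih1 ih2
    have h1 := key _ _ (hm.conn (f w) (f w') v hw hw')
    rw [f.symm_apply_apply, f.symm_apply_apply] at h1
    exact h1

theorem isMinor_of_delE {H G : MGraph} (e : G.E) (h : IsMinor H (G.delE e)) : IsMinor H G := by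
  obtain ⟨φ', ε', hm⟩ := h
  refine ⟨φ', fun x => (ε' x).1, ?_, ?_, ?_, ?_⟩
  · intro e1 e2 h12
    exact hm.inj (Subtype.ext h12)
  · intro x
    exact hm.ends x
  · intro v
    exact hm.surj v
  · intro w w' v hw hw'
    have key : ∀ a b : G.V, Relation.EqvGen (Con (H := H) (G := G.delE e) φ' ε' v) a b →
        Relation.EqvGen (Con (H := H) (G := G) φ' (fun x => (ε' x).1) v) a b := by
      intro a b hab
      induction hab with
      | rel a b hc =>
        obtain ⟨h1, h2, f, h3, h4⟩ := hc
        exact Relation.EqvGen.rel _ _ ⟨h1, h2, f.1, fun x hx => h3 x (Subtype.ext hx), h4⟩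
      | refl a => exact Relation.EqvGen.refl _
      | symm a b _ ih => exact Relation.EqvGen.symm _ _ ih
      | trans a b c _ _ ih1 ih2 => exact Relation.EqvGen.trans _ _ _ ih1 ih2
    exact key w w' (hm.conn w w' v hw hw')

theorem isMinor_of_delV {H G : MGraph} (v : G.V) (h : IsMinor H (G.delV v)) : IsMinor H G := by
  classical
  obtain ⟨φ', ε', hm⟩ := h
  let φ : G.V → Option H.V := fun w => if h : w = v then none else φ' ⟨w, h⟩
  have hφ : ∀ (w : G.V) (h : w ≠ v), φ w = φ' ⟨w, h⟩ := fun w h => dif_neg h
  have hφ2 : ∀ (w : G.V) (u : H.V), φ w = some u → w ≠ v := by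
    intro w u hw hwv
    have h1 : φ w = none := dif_pos hwv
    rw [h1] at hw
    exact absurd hw (by simp)
  refine ⟨φ, fun x => (ε' x).1, ?_, ?_, ?_, ?_⟩
  · intro e1 e2 h12
    exact hm.inj (Subtype.ext h12)
  · intro x
    rw [hφ _ (ε' x).2.1, hφ _ (ε' x).2.2]
    exact hm.ends x
  · intro u
    obtain ⟨w, hw⟩ := hm.surj u
    exact ⟨w.1, (hφ w.1 w.2).trans hw⟩
  · intro w w' u hw hw'
    have key : ∀ a b : (G.delV v).V, Relation.EqvGen (Con φ' ε' u) a b →
        Relation.EqvGen (Con (H := H) (G := G) φ (fun x => (ε' x).1) u) a.1 b.1 := by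
      intro a b hab
      induction hab with
      | rel a b hc =>
        obtain ⟨h1, h2, f, h3, h4⟩ := hc
        refine Relation.EqvGen.rel _ _ ⟨(hφ a.1 a.2).trans h1, (hφ b.1 b.2).trans h2, f.1,
          fun x hx => h3 x (Subtype.ext hx), ?_⟩
        have h5 : (G.ends f.1).1 = a.1 := congrArg (fun q => q.1.1) h4
        have h6 : (G.ends f.1).2 = b.1 := congrArg (fun q => q.2.1) h4
        exact Prod.ext h5 h6
      | refl a => exact Relation.EqvGen.refl _
      | symm a b _ ih => exact Relation.EqvGen.symm _ _ ih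
      | trans a b c _ _ ih1 ih2 => exact Relation.EqvGen.trans _ _ _ ih1 ih2
    have h1 := hφ2 w u hw
    have h2 := hφ2 w' u hw'
    exact key ⟨w, h1⟩ ⟨w', h2⟩ (hm.conn ⟨w, h1⟩ ⟨w', h2⟩ u ((hφ w h1).symm.trans hw)
      ((hφ w' h2).symm.trans hw'))

theorem isMinor_of_contr {H G : MGraph} (e : G.E) (hne : (G.ends e).1 ≠ (G.ends e).2)
    (h : IsMinor H (G.contr e hne)) : IsMinor H G := by
  obtain ⟨φ', ε', hm⟩ := h
  have hmg2 : ∀ w : {w : G.V // w ≠ (G.ends e).2}, G.mg e hne w.1 = w := by
    intro w
    unfold MGraph.mg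
    rw [dif_neg w.2]
  have hmgb : G.mg e hne (G.ends e).2 = ⟨(G.ends e).1, hne⟩ := by
    unfold MGraph.mg
    rw [dif_pos rfl]
  have hmga : G.mg e hne (G.ends e).1 = ⟨(G.ends e).1, hne⟩ := by
    unfold MGraph.mg
    rw [dif_neg hne]
  let φ : G.V → Option H.V := fun w => φ' (G.mg e hne w)
  let ε : H.E → G.E := fun x => (ε' x).1
  refine ⟨φ, ε, ?_, ?_, ?_, ?_⟩
  · intro e1 e2 h12
    exact hm.inj (Subtype.ext h12)
  · intro x
    exact hm.ends x
  · intro u
    obtain ⟨w, hw⟩ := hm.surj u
    refine ⟨w.1, ?_⟩
    show φ' (G.mg e hne w.1) = some u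
    rw [hmg2]
    exact hw
  · intro w w' u hw hw'
    have h0 : ∀ w : G.V, φ w = some u →
        Relation.EqvGen (Con φ ε u) w (G.mg e hne w).1 := by
      intro w hw
      by_cases hwb : w = (G.ends e).2
      · have hw2 : φ' (G.mg e hne w) = some u := hw
        rw [hwb, hmgb] at hw2
        have h1 : φ (G.ends e).1 = some u := by
          show φ' (G.mg e hne (G.ends e).1) = some u
          rw [hmga]
          exact hw2
        have h2 : φ (G.ends e).2 = some u := by
          show φ' (G.mg e hne (G.ends e).2) = some u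
          rw [hmgb]
          exact hw2
        rw [hwb, hmgb]
        exact Relation.EqvGen.symm _ _ (Relation.EqvGen.rel _ _
          ⟨h1, h2, e, fun x => (ε' x).2, rfl⟩)
      · have h1 : (G.mg e hne w).1 = w := by
          unfold MGraph.mg
          rw [dif_neg hwb]
        rw [h1]
        exact Relation.EqvGen.refl _
    have key : ∀ a b : (G.contr e hne).V, Relation.EqvGen (Con φ' ε' u) a b →
        Relation.EqvGen (Con φ ε u) a.1 b.1 := by
      intro a b hab
      induction hab with
      | rel a b hc =>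
        obtain ⟨h1, h2, f, h3, h4⟩ := hc
        have h5 : G.mg e hne (G.ends f.1).1 = a := congrArg Prod.fst h4
        have h6 : G.mg e hne (G.ends f.1).2 = b := congrArg Prod.snd h4
        have h7 : φ (G.ends f.1).1 = some u := by
          show φ' (G.mg e hne (G.ends f.1).1) = some u
          rw [h5]; exact h1
        have h8 : φ (G.ends f.1).2 = some u := by
          show φ' (G.mg e hne (G.ends f.1).2) = some u
          rw [h6]; exact h2
        have h9 := h0 _ h7
        have h10 := h0 _ h8
        rw [h5] at h9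
        rw [h6] at h10
        have h11 : Relation.EqvGen (Con φ ε u) (G.ends f.1).1 (G.ends f.1).2 :=
          Relation.EqvGen.rel _ _ ⟨h7, h8, f.1, fun x hx => h3 x (Subtype.ext hx), rfl⟩
        exact (h9.symm.trans _ _ _ h11).trans _ _ _ h10
      | refl a => exact Relation.EqvGen.refl _
      | symm a b _ ih => exact Relation.EqvGen.symm _ _ ih
      | trans a b c _ _ ih1 ih2 => exact Relation.EqvGen.trans _ _ _ ih1 ih2
    have h1 := key _ _ (hm.conn (G.mg e hne w) (G.mg e hne w') u hw hw')
    exact ((h0 w hw).trans _ _ _ h1).trans _ _ _ (h0 w' hw').symm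

theorem minorClosed_free (H : MGraph) : MGraph.MinorClosed {G | ¬ IsMinor H G} :=
  ⟨fun _ _ h hi h' => h (isMinor_of_iso hi h'), fun _ e h h' => h (isMinor_of_delE e h'),
    fun _ v h h' => h (isMinor_of_delV v h'), fun _ e hne h h' => h (isMinor_of_contr e hne h')⟩

end Pool.Agent.TU
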