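import Pool.Agent.Lib.MP_e6c033_lc.Mg.G004

/-!
# Task Mo: minor-closed classes are closed under minors given by models

Proof.  Strong induction on `Fintype.card G.V + Fintype.card G.E` (for all `G`, with `φ, ε` in the statement).
1. If `φ w = none` for some `w`: `isMinor_delV`, `MinorClosed.delV`, and `G.delV w` has fewer vertices and not more edges.
2. Otherwise, if an unused edge `f` has different ends with the same `φ`: `isMinor_contr`, `MinorClosed.contr`; fewer vertices and edges.
3. Otherwise, if there is an unused edge `f`: it is a loop or its ends have different `φ`: `isMinor_delE`, `MinorClosed.delE`; fewer edges.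
4. Otherwise `iso_of_model` and `MinorClosed.iso`.
Cardinalities: `Fintype.card_subtype_lt`, `Fintype.card_subtype_le`; the `Fintype` instances of the fields `fV, fE` are `Fintype.ofFinite _`: use
`Fintype.card_congr`/`Nat.card_eq_fintype_card` or `Subsingleton` of `Fintype`.
-/

set_option autoImplicit false

namespace Pool.Agent.TU

private theorem Mo_aux {C : Set MGraph} (hC : MGraph.MinorClosed C) (H : MGraph) (n : ℕ) :
    ∀ G : MGraph, Nat.card G.V + Nat.card G.E = n → G ∈ C → IsMinor H G → H ∈ C := by
  induction n using Nat.strong_induction_on with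
  | _ n ih =>
    intro G hn hG h
    obtain ⟨φ, ε, hm⟩ := h
    by_cases h1 : ∃ w, φ w = none
    · obtain ⟨w, hw⟩ := h1
      refine ih _ ?_ (G.delV w) rfl (hC.delV G w hG) (isMinor_delV hm w hw)
      have h2 : Nat.card (G.delV w).V < Nat.card G.V :=
        Finite.card_subtype_lt (p := fun x : G.V => x ≠ w) (x := w) (fun hh => hh rfl)
      have h3 : Nat.card (G.delV w).E ≤ Nat.card G.E :=
        Finite.card_subtype_le (fun f : G.E => (G.ends f).1 ≠ w ∧ (G.ends f).2 ≠ w)
      omega
    · by_cases h2 : ∃ f : G.E, (∀ e, ε e ≠ f) ∧ (G.ends f).1 ≠ (G.ends f).2 ∧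
        φ (G.ends f).1 = φ (G.ends f).2
      · obtain ⟨f, hf, hne, hφ⟩ := h2
        refine ih _ ?_ (G.contr f hne) rfl (hC.contr G f hne hG) (isMinor_contr hm f hf hne hφ)
        have h4 : Nat.card (G.contr f hne).V < Nat.card G.V :=
          Finite.card_subtype_lt (p := fun x : G.V => x ≠ (G.ends f).2) (x := (G.ends f).2)
            (fun hh => hh rfl)
        have h3 : Nat.card (G.contr f hne).E ≤ Nat.card G.E :=
          Finite.card_subtype_le (fun g : G.E => g ≠ f)
        omega
      · by_cases h3 : ∃ f : G.E, ∀ e, ε e ≠ f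
        · obtain ⟨f, hf⟩ := h3
          have hφ : (G.ends f).1 = (G.ends f).2 ∨ φ (G.ends f).1 ≠ φ (G.ends f).2 := by
            by_contra hcon
            push Not at hcon
            exact h2 ⟨f, hf, hcon.1, hcon.2⟩
          refine ih _ ?_ (G.delE f) rfl (hC.delE G f hG) (isMinor_delE hm f hf hφ)
          have h4 : Nat.card (G.delE f).E < Nat.card G.E :=
            Finite.card_subtype_lt (p := fun g : G.E => g ≠ f) (x := f) (fun hh => hh rfl)
          have h5 : Nat.card (G.delE f).V = Nat.card G.V := rfl
          omega
        · have h4 : ∀ f, ∃ e, ε e = f := by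
            intro f
            by_contra hcon
            push Not at hcon
            exact h3 ⟨f, hcon⟩
          exact hC.iso G H hG (iso_of_model hm (fun w hw => h1 ⟨w, hw⟩) h4)

theorem mem_of_minor {C : Set MGraph} (hC : MGraph.MinorClosed C) {H G : MGraph} (hG : G ∈ C)
    (h : IsMinor H G) : H ∈ C :=
  Mo_aux hC H _ G rfl hG h

end Pool.Agent.TU
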