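import Pool.Agent.Lib.MP_e6c033_lc.TU.Defs

/-!
# Models of minors
-/

set_option autoImplicit false

namespace Pool.Agent.TU

/-- `a` and `b` are in the branch set of `v` and are joined by an edge which is not used by `ε`. -/
def Con {H G : MGraph} (φ : G.V → Option H.V) (ε : H.E → G.E) (v : H.V) (a b : G.V) : Prop :=
  φ a = some v ∧ φ b = some v ∧ ∃ f : G.E, (∀ e, ε e ≠ f) ∧ G.ends f = (a, b)

/-- `H` is a minor of `G`: `φ` gives the branch sets (`none`: the vertex is deleted), `ε` the edges. -/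
structure IsModel (H G : MGraph) (φ : G.V → Option H.V) (ε : H.E → G.E) : Prop where
  inj : Function.Injective ε
  ends : ∀ e : H.E,
    (φ (G.ends (ε e)).1 = some (H.ends e).1 ∧ φ (G.ends (ε e)).2 = some (H.ends e).2) ∨
    (φ (G.ends (ε e)).1 = some (H.ends e).2 ∧ φ (G.ends (ε e)).2 = some (H.ends e).1)
  surj : ∀ v : H.V, ∃ w, φ w = some v
  conn : ∀ (w w' : G.V) (v : H.V), φ w = some v → φ w' = some v → Relation.EqvGen (Con φ ε v) w w'

/-- `H` is a minor of `G`. -/
def IsMinor (H G : MGraph) : Prop := ∃ (φ : G.V → Option H.V) (ε : H.E → G.E), IsModel H G φ ε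

end Pool.Agent.TU
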