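import Pool.Agent.Lib.MP_e6c033_lc.Mg.G001

/-!
# Task Tb: the Tutte polynomial on `H_2` and the Ising model

Proof.  `a := x - 1`, `b := y - 1`, `a b = 2`, so `a, b ≠ 0`.  By `comps_anti` and `card_le_comps`, `r(A) ≤ r(E)` and `r(A) ≤ |A|`, so
`a ^ (r(E) - r(A)) b ^ (|A| - r(A)) = a ^ r(E) b ^ |A| / 2 ^ r(A) = a ^ r(E) b ^ |A| 2 ^ k(A) / 2 ^ |V|` (`comps_le`).
`∑_A b ^ |A| 2 ^ k(A) = ∑_A b ^ |A| ∑_σ 1[σ constant on the edges of A]` (`comps_colorings`) `= ∑_σ ∑_{A ⊆ mono(σ)} b ^ |A| = ∑_σ ∏_e (1 + b 1[e mono])`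
(`Finset.prod_one_add`-like, `Finset.prod_add`, or `Finset.sum_pow_mul_eq_add_pow` / `Finset.prod_ite`: `∑_{A ⊆ S} b ^ |A| = (1 + b) ^ |S|`), and `1 + b = y`.
-/

set_option autoImplicit false

namespace Pool.Agent.TU.MGraph

theorem tutte_eq (G : MGraph) (x y : ℚ) (h : (x - 1) * (y - 1) = 2) :
    G.tutte x y = (x - 1) ^ G.rk Finset.univ / 2 ^ Fintype.card G.V * G.zy y := by
  classical
  have hterm : ∀ A : Finset G.E,
      (x - 1) ^ (G.rk Finset.univ - G.rk A) * (y - 1) ^ (A.card - G.rk A) =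
      (x - 1) ^ G.rk Finset.univ / 2 ^ Fintype.card G.V *
        ((y - 1) ^ A.card * 2 ^ G.comps A) := by
    intro A
    have h1 : G.comps A ≤ Fintype.card G.V := G.comps_le A
    have h2 : G.comps Finset.univ ≤ G.comps A := G.comps_anti (Finset.subset_univ A)
    have h3 := G.card_le_comps A
    obtain ⟨r, hr⟩ : ∃ r, r = G.rk A := ⟨_, rfl⟩
    obtain ⟨p, hp⟩ : ∃ p, p = G.rk Finset.univ - r := ⟨_, rfl⟩
    obtain ⟨q, hq⟩ : ∃ q, q = A.card - r := ⟨_, rfl⟩
    obtain ⟨k, hk⟩ : ∃ k, k = G.comps A := ⟨_, rfl⟩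
    have hr1 : Fintype.card G.V = r + k := by
      rw [hr, hk]
      unfold rk
      omega
    have hr2 : G.rk Finset.univ = p + r := by
      rw [hp, hr]
      unfold rk
      omega
    have hr3 : A.card = q + r := by
      rw [hq, hr]
      unfold rk
      omega
    rw [← hr, ← hp, ← hq, ← hk, hr1, hr2, hr3, div_mul_eq_mul_div,
      eq_div_iff (by positivity), pow_add, pow_add, pow_add]
    have h4 : (x - 1) ^ r * (y - 1) ^ r = 2 ^ r := by rw [← mul_pow, h]
    linear_combination (-((x - 1) ^ p * (y - 1) ^ q * 2 ^ k)) * h4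
  have hz : G.zy y = ∑ A : Finset G.E, (y - 1) ^ A.card * 2 ^ G.comps A := by
    unfold zy
    have h1 : ∀ σ : G.V → Bool,
        (∏ e : G.E, (if σ (G.ends e).1 = σ (G.ends e).2 then y else 1)) =
        ∑ A : Finset G.E,
          (if ∀ e ∈ A, σ (G.ends e).1 = σ (G.ends e).2 then (y - 1) ^ A.card else 0) := by
      intro σ
      have h2 : ∀ e : G.E, (if σ (G.ends e).1 = σ (G.ends e).2 then y else 1) =
          1 + (if σ (G.ends e).1 = σ (G.ends e).2 then y - 1 else 0) := by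
        intro e
        split_ifs <;> ring
      rw [Finset.prod_congr rfl (fun e _ => h2 e), Finset.prod_one_add, Finset.powerset_univ]
      refine Finset.sum_congr rfl (fun A _ => ?_)
      rw [Finset.prod_ite_zero, Finset.prod_const]
      by_cases hc : ∀ e ∈ A, σ (G.ends e).1 = σ (G.ends e).2
      · rw [if_pos hc, if_pos hc]
      · rw [if_neg hc, if_neg hc]
    rw [Finset.sum_congr rfl (fun σ _ => h1 σ), Finset.sum_comm]
    refine Finset.sum_congr rfl (fun A _ => ?_)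
    rw [← Finset.sum_filter, Finset.sum_const, nsmul_eq_mul]
    have h5 := comps_colorings G A
    have h6 : ((Finset.univ.filter (fun σ : G.V → Bool =>
      ∀ e ∈ A, σ (G.ends e).1 = σ (G.ends e).2)).card : ℚ) = 2 ^ G.comps A := by
      rw [h5]
      push_cast
      rfl
    rw [h6]
    ring
  unfold tutte
  rw [Finset.sum_congr rfl (fun A _ => hterm A), hz, Finset.mul_sum]

end Pool.Agent.TU.MGraph
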